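import Pool.Agent.Helper5.MD.MF.MFDefs

/-!
# MD-A0 : identity theorem on the upper half plane

`mul_eq_zero_of_mdiff`: the ring of holomorphic functions on `ℍ` is a domain
(`UpperHalfPlane.mdifferentiable_iff`, analytic identity theorem on the convex set `0 < im`).
`mdiff_comp_*`: composition with the maps `dbl, hf, hf1, sh, sv, fr`.
-/

open UpperHalfPlane hiding I
open ModularForm MatrixGroups Filter Topology
open scoped Manifold Real Nat

namespace Pool.Agent.Helper5.MD

theorem mul_eq_zero_of_mdiff {a b : ℍ → ℂ} (ha : MDiff a) (hb : MDiff b)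
    (h : ∀ z, a z * b z = 0) : (∀ z, a z = 0) ∨ (∀ z, b z = 0) := by
  rw [UpperHalfPlane.mdifferentiable_iff] at ha hb
  have hopen : IsOpen {z : ℂ | 0 < z.im} := isOpen_upperHalfPlaneSet
  have haA := ha.analyticOnNhd hopen
  have hbA := hb.analyticOnNhd hopen
  have hconv : Convex ℝ {z : ℂ | 0 < z.im} := convex_halfSpace_im_gt 0
  have hpre : IsPreconnected {z : ℂ | 0 < z.im} := hconv.isPreconnected
  have key := AnalyticOnNhd.eq_zero_or_eq_zero_of_mul_eq_zero haA hbA (fun z hz => by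
    simpa using h (ofComplex z)) hpre
  rcases key with hk | hk
  · left
    intro z
    have := hk (z : ℂ) z.im_pos
    simpa using this
  · right
    intro z
    have := hk (z : ℂ) z.im_pos
    simpa using this

private theorem mdiff_comp_aux {g : ℍ → ℂ} (hg : MDiff g) (p : ℍ → ℍ) (q : ℂ → ℂ)
    (hq : DifferentiableOn ℂ q {z : ℂ | 0 < z.im})
    (h : ∀ z : ℍ, ((p z : ℍ) : ℂ) = q z) : MDiff (fun z : ℍ => g (p z)) := by
  rw [UpperHalfPlane.mdifferentiable_iff] at hg ⊢
  have hm : Set.MapsTo q {z : ℂ | 0 < z.im} {z : ℂ | 0 < z.im} := by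
    intro z hz
    have := h ⟨z, hz⟩
    have h2 : 0 < ((p ⟨z, hz⟩ : ℍ) : ℂ).im := (p ⟨z, hz⟩).im_pos
    rw [this] at h2
    exact h2
  have hc := hg.comp hq hm
  refine hc.congr ?_
  intro z hz
  have hz' : 0 < z.im := hz
  simp only [Function.comp]
  rw [ofComplex_apply_of_im_pos hz', ofComplex_apply_of_im_pos (hm hz)]
  congr 1
  apply UpperHalfPlane.ext
  rw [h]

theorem mdiff_dbl {g : ℍ → ℂ} (hg : MDiff g) : MDiff (fun z : ℍ => g (dbl z)) :=
  mdiff_comp_aux hg dbl (fun z => 2 * z) (by fun_prop) (fun z => rfl)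

theorem mdiff_hf {g : ℍ → ℂ} (hg : MDiff g) : MDiff (fun z : ℍ => g (hf z)) :=
  mdiff_comp_aux hg hf (fun z => z / 2) (by fun_prop) (fun z => rfl)

theorem mdiff_hf1 {g : ℍ → ℂ} (hg : MDiff g) : MDiff (fun z : ℍ => g (hf1 z)) :=
  mdiff_comp_aux hg hf1 (fun z => (z + 1) / 2) (by fun_prop) (fun z => rfl)

theorem mdiff_fr {g : ℍ → ℂ} (hg : MDiff g) : MDiff (fun z : ℍ => g (fr z)) := by
  refine mdiff_comp_aux hg fr (fun z => -1 / (2 * z)) ?_ (fun z => rfl)
  intro z hz
  have hz' : 0 < z.im := hz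
  have hne : (2 : ℂ) * z ≠ 0 := by
    intro h0
    have : z = 0 := by simpa using h0
    rw [this] at hz'
    simp at hz'
  apply DifferentiableAt.differentiableWithinAt
  apply DifferentiableAt.div
  · fun_prop
  · fun_prop
  · exact hne

theorem mdiff_pow {g : ℍ → ℂ} (hg : MDiff g) (n : ℕ) : MDiff (fun z : ℍ => g z ^ n) := by
  rw [UpperHalfPlane.mdifferentiable_iff] at hg ⊢
  exact hg.pow n

end Pool.Agent.Helper5.MD
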