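import Pool.Agent.Helper5.MD.MF.A7HH

/-!
# MD-A10 : the pairs of the basis, limits and linear independence

`isPair_gg`: from `EE_fr`, `FF_fr`, `HH_fr`.  Both sides tend to zero for `1 ≤ j ≤ κ - 1`.
`gg_independent`: `HH^ε EE^κ ∑ v_j FF^j = 0` near `i∞`, where `HH ≠ 0`, so the polynomial `∑ v_j X^j` vanishes at all
`FF z`, `im z` large; these are infinitely many values (nonzero and tending to `0`).
-/

open UpperHalfPlane hiding I
open ModularForm MatrixGroups Filter Topology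
open scoped Manifold Real Nat

namespace Pool.Agent.Helper5.MD

/-- the partner of `gg ε κ j` -/
noncomputable def ggp (ε : Bool) (κ j : ℕ) (z : ℍ) : ℂ :=
  (if ε then -1 else 1) * 2 ^ (6 * (κ : ℤ) - 12 * j) * gg ε κ (κ - j) z

private theorem gg_mdiff (ε : Bool) (κ j : ℕ) : MDiff (gg ε κ j) := by
  have h1 : MDiff (fun z : ℍ => EE z ^ κ * FF z ^ j) := (mdiff_pow EE_mdiff κ).mul (mdiff_pow FF_mdiff j)
  cases ε
  · have h : gg false κ j = fun z : ℍ => EE z ^ κ * FF z ^ j := by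
      funext z; simp [gg]
    rw [h]; exact h1
  · have h : gg true κ j = fun z : ℍ => HH z * (EE z ^ κ * FF z ^ j) := by
      funext z; simp [gg, mul_assoc]
    rw [h]; exact HH_mdiff.mul h1

private theorem gg_sh (ε : Bool) (κ j : ℕ) (z : ℍ) : gg ε κ j (sh z) = gg ε κ j z := by
  unfold gg
  rw [HH_sh, EE_sh, FF_sh]

theorem isPair_gg (ε : Bool) (κ j : ℕ) (hjκ : j ≤ κ) :
    IsPair (2 * (κ : ℤ) + (if ε then 1 else 0)) (gg ε κ j) (ggp ε κ j) where
  holo := gg_mdiff ε κ j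
  holo' := MDifferentiable.const_smul _ (gg_mdiff ε κ (κ - j))
  per := gg_sh ε κ j
  per' := fun z => by unfold ggp; rw [gg_sh]
  fricke := fun z => by
    obtain ⟨i, rfl⟩ := Nat.exists_eq_add_of_le hjκ
    have hF := FF_ne_zero z
    have hz := z.ne_zero
    unfold ggp gg
    rw [Nat.add_sub_cancel_left, EE_fr, FF_fr, HH_fr]
    have h2 : (2 : ℂ) ≠ 0 := two_ne_zero
    have e0 : (2 : ℂ) ^ (6 * ((j + i : ℕ) : ℤ) - 12 * (j : ℤ)) =
        2 ^ (6 * (j + i)) / 2 ^ (12 * j) := by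
      rw [zpow_sub₀ h2]
      norm_cast
    have e1 : (2 : ℂ) ^ (2 * ((j + i : ℕ) : ℤ)) = 2 ^ (2 * (j + i)) := by norm_cast
    have e2 : (z : ℂ) ^ (2 * (2 * ((j + i : ℕ) : ℤ))) = (z : ℂ) ^ (4 * (j + i)) := by
      have h3 : (2 * (2 * ((j + i : ℕ) : ℤ))) = ((4 * (j + i) : ℕ) : ℤ) := by push_cast; ring
      rw [h3, zpow_natCast]
    have key : (256 * (z : ℂ) ^ 4 * (EE z * FF z)) ^ (j + i) * (4096 * FF z)⁻¹ ^ j =
        2 ^ (2 * (j + i)) * (z : ℂ) ^ (4 * (j + i)) *
          (2 ^ (6 * (j + i)) / 2 ^ (12 * j) * (EE z ^ (j + i) * FF z ^ i)) := by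
      have h4096 : (4096 : ℂ) ^ j = 2 ^ (12 * j) := by rw [pow_mul]; norm_num
      have h256 : (256 : ℂ) ^ (j + i) = 2 ^ (2 * (j + i)) * 2 ^ (6 * (j + i)) := by
        rw [← pow_add, ← add_mul, pow_mul]; norm_num
      rw [mul_pow, mul_pow, mul_pow, inv_pow, mul_pow, h4096, h256, ← pow_mul, pow_add (FF z)]
      field_simp
    cases ε
    · simp only [Bool.false_eq_true, if_false, add_zero, one_mul]
      rw [e0, e1, e2, key]
    · simp only [if_true]
      have e3 : (2 : ℂ) ^ (2 * ((j + i : ℕ) : ℤ) + 1) = 2 ^ (2 * (j + i)) * 2 := by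
        rw [zpow_add₀ h2, e1, zpow_one]
      have e4 : (z : ℂ) ^ (2 * (2 * ((j + i : ℕ) : ℤ) + 1)) =
          (z : ℂ) ^ (4 * (j + i)) * (z : ℂ) ^ 2 := by
        rw [mul_add, zpow_add₀ hz, e2]
        norm_cast
      rw [e0, e3, e4]
      linear_combination (-2 * (z : ℂ) ^ 2 * HH z) * key

theorem gg_zero (ε : Bool) (κ j : ℕ) (hj : 1 ≤ j) : IsZeroAtImInfty (gg ε κ j) := by
  have hF : Tendsto (fun z => FF z ^ j) atImInfty (𝓝 0) := by
    have := FF_tendsto.pow j
    rwa [zero_pow (by omega)] at this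
  have hE : Tendsto (fun z => EE z ^ κ) atImInfty (𝓝 1) := by
    have := EE_tendsto.pow κ
    rwa [one_pow] at this
  have hH : Tendsto (fun z => if ε then HH z else 1) atImInfty (𝓝 1) := by
    cases ε
    · simp
    · simpa using HH_tendsto
  have h := (hH.mul hE).mul hF
  rw [mul_zero] at h
  exact h

theorem ggp_zero (ε : Bool) (κ j : ℕ) (hjκ : j < κ) : IsZeroAtImInfty (ggp ε κ j) := by
  have h := (gg_zero ε κ (κ - j) (by omega)).const_mul
    ((if ε then -1 else 1) * 2 ^ (6 * (κ : ℤ) - 12 * j) : ℂ)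
  rw [mul_zero] at h
  exact h

theorem gg_independent (ε : Bool) (κ : ℕ) (s : Finset ℕ) (v : ℕ → ℂ)
    (h : ∀ z, ∑ j ∈ s, v j * gg ε κ j z = 0) (j : ℕ) (hj : j ∈ s) : v j = 0 := by
  classical
  -- the polynomial
  let p : Polynomial ℂ := ∑ i ∈ s, Polynomial.C (v i) * Polynomial.X ^ i
  have hcoeff : p.coeff j = v j := by
    simp only [p, Polynomial.finsetSum_coeff, Polynomial.coeff_C_mul_X_pow]
    rw [Finset.sum_eq_single j]
    · simp
    · intro b _ hb
      rw [if_neg (fun h => hb h.symm)]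
    · intro h'
      exact absurd hj h'
  have hH : Tendsto (fun z => if ε then HH z else 1) atImInfty (𝓝 1) := by
    cases ε
    · simp
    · simpa using HH_tendsto
  have hne : ∀ᶠ z in atImInfty, (if ε then HH z else 1) ≠ 0 :=
    hH.eventually_ne one_ne_zero
  have heval : ∀ᶠ z in atImInfty, p.eval (FF z) = 0 := by
    filter_upwards [hne] with z hz
    have h1 : (if ε then HH z else 1) * EE z ^ κ * p.eval (FF z) = 0 := by
      rw [← h z]
      simp only [p, Polynomial.eval_finsetSum, Polynomial.eval_mul, Polynomial.eval_C,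
        Polynomial.eval_pow, Polynomial.eval_X, Finset.mul_sum, gg]
      refine Finset.sum_congr rfl fun i _ => ?_
      ring
    rcases mul_eq_zero.1 h1 with h2 | h2
    · rcases mul_eq_zero.1 h2 with h3 | h3
      · exact absurd h3 hz
      · exact absurd h3 (pow_ne_zero _ (EE_ne_zero z))
    · exact h2
  rw [← hcoeff]
  by_contra hp
  have hp0 : p ≠ 0 := fun h0 => hp (by rw [h0, Polynomial.coeff_zero])
  -- the nonzero roots stay away from zero
  have hfin : ((p.roots.toFinset : Set ℂ) \ {0}).Finite := (p.roots.toFinset.finite_toSet).subset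
    Set.sdiff_subset
  have hopen : ((p.roots.toFinset : Set ℂ) \ {0})ᶜ ∈ 𝓝 (0 : ℂ) :=
    hfin.isClosed.isOpen_compl.mem_nhds (by simp)
  have hev := FF_tendsto.eventually hopen
  obtain ⟨z, hz1, hz2⟩ := (heval.and hev).exists
  apply hz2
  refine ⟨?_, FF_ne_zero z⟩
  simp only [Finset.mem_coe, Multiset.mem_toFinset]
  exact (Polynomial.mem_roots hp0).2 hz1

end Pool.Agent.Helper5.MD
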