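import Pool.Agent.Helper5.MD.MF.A4Trace

/-!
# MD-A11 : the Hecke operator `T_2` on level one cusp forms

`f ↦ 2^(2m-1) f(2z) + (f(z/2) + f((z+1)/2))/2` is half of the trace of the pair `(f, 2^m f(2z))`: `tr = 2^(2m) f(2z) + f(z/2) + f((z+1)/2)`.
Linear map from `exists_trace_cuspForm` and `isPair_of_cuspForm` by choice (values determine the form).
`T2_coeff`: compare `q`-expansions: `f(2z)` has coefficients `a(n/2)`, `(f(z/2) + f((z+1)/2))/2 = ∑ a(2n) q^n`
(`UpperHalfPlane.hasSum_qExpansion`, `UpperHalfPlane.qExpansion_coeff_unique`).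
`finrank`: `CuspForm 𝒮ℒ k ≃ ModularForm 𝒮ℒ (k - 12)` (`CuspForm.discriminantEquiv`).
-/

open UpperHalfPlane hiding I
open ModularForm MatrixGroups Filter Topology
open scoped Manifold Real Nat

namespace Pool.Agent.Helper5.MD

theorem exists_T2_apply (m : ℤ) (f : CuspForm 𝒮ℒ (2 * m)) : ∃ F : CuspForm 𝒮ℒ (2 * m),
    ∀ z, F z = 2 ^ (2 * m - 1) * f (dbl z) + (f (hf z) + f (hf1 z)) / 2 := by
  have h := isPair_of_cuspForm f
  have hz := cuspForm_isZero f
  have hG : IsZeroAtImInfty (fun z => (2 : ℂ) ^ m * f (dbl z)) := by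
    have h1 : Tendsto (fun z => f (dbl z)) atImInfty (𝓝 0) := Tendsto.comp hz tendsto_dbl
    have h2 := h1.const_mul ((2 : ℂ) ^ m)
    rw [mul_zero] at h2
    exact h2
  obtain ⟨F, hF⟩ := exists_trace_cuspForm h hz hG
  refine ⟨(1 / 2 : ℂ) • F, fun z => ?_⟩
  have h3 : ((1 / 2 : ℂ) • F) z = (1 / 2 : ℂ) * F z := rfl
  rw [h3, hF, tr]
  have h4 : (2 : ℂ) ^ (2 * m - 1) = 2 ^ m * 2 ^ m / 2 := by
    rw [zpow_sub₀ (by norm_num), two_mul, zpow_add₀ (by norm_num), zpow_one]
  rw [h4]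
  ring

theorem exists_T2 (m : ℤ) : ∃ T : CuspForm 𝒮ℒ (2 * m) →ₗ[ℂ] CuspForm 𝒮ℒ (2 * m),
    ∀ f z, T f z = 2 ^ (2 * m - 1) * f (dbl z) + (f (hf z) + f (hf1 z)) / 2 := by
  choose F hF using exists_T2_apply m
  refine ⟨{ toFun := F, map_add' := ?_, map_smul' := ?_ }, hF⟩
  · intro f g
    apply DFunLike.ext
    intro z
    have h1 : (F f + F g) z = F f z + F g z := rfl
    have h2 : ∀ w, (f + g) w = f w + g w := fun w => rfl
    rw [h1, hF, hF, hF, h2, h2, h2]
    ring
  · intro c f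
    apply DFunLike.ext
    intro z
    have h1 : (c • F f) z = c * F f z := rfl
    have h2 : ∀ w, (c • f) w = c * f w := fun w => rfl
    rw [RingHom.id_apply, h1, hF, hF, h2, h2, h2]
    ring

/-- the Hecke operator `T_2` -/
noncomputable def T2 (m : ℤ) : CuspForm 𝒮ℒ (2 * m) →ₗ[ℂ] CuspForm 𝒮ℒ (2 * m) :=
  (exists_T2 m).choose

theorem T2_apply (m : ℤ) (f : CuspForm 𝒮ℒ (2 * m)) (z : ℍ) :
    T2 m f z = 2 ^ (2 * m - 1) * f (dbl z) + (f (hf z) + f (hf1 z)) / 2 :=
  (exists_T2 m).choose_spec f z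

theorem qParam_dbl (z : ℍ) : Function.Periodic.qParam 1 (dbl z) =
    Function.Periodic.qParam 1 z ^ 2 := by
  rw [Function.Periodic.qParam, Function.Periodic.qParam, ← Complex.exp_nat_mul, coe_dbl]
  congr 1
  push_cast
  ring

theorem qParam_hf (z : ℍ) : Function.Periodic.qParam 1 (hf z) ^ 2 =
    Function.Periodic.qParam 1 z := by
  rw [← qParam_dbl, dbl_hf]

theorem qParam_hf1 (z : ℍ) : Function.Periodic.qParam 1 (hf1 z) =
    - Function.Periodic.qParam 1 (hf z) := by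
  rw [Function.Periodic.qParam, Function.Periodic.qParam, coe_hf1, coe_hf]
  have h1 : 2 * (π : ℂ) * Complex.I * (((z : ℂ) + 1) / 2) / ((1 : ℝ) : ℂ) =
      2 * (π : ℂ) * Complex.I * ((z : ℂ) / 2) / ((1 : ℝ) : ℂ) + π * Complex.I := by
    push_cast
    ring
  rw [h1, Complex.exp_add, Complex.exp_pi_mul_I]
  ring

theorem T2_coeff (m : ℤ) (f : CuspForm 𝒮ℒ (2 * m)) (n : ℕ) :
    (qExpansion 1 (T2 m f)).coeff n = (qExpansion 1 f).coeff (2 * n) +
      2 ^ (2 * m - 1) * (if 2 ∣ n then (qExpansion 1 f).coeff (n / 2) else 0) := by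
  symm
  refine ModularFormClass.qExpansion_coeff_unique (c := fun n => (qExpansion 1 f).coeff (2 * n) +
      2 ^ (2 * m - 1) * (if 2 ∣ n then (qExpansion 1 f).coeff (n / 2) else 0)) one_pos
      one_mem_strictPeriods_SL ?_ n
  intro τ
  have hinj : Function.Injective (fun n : ℕ => 2 * n) := fun a b h => by
    simp only at h
    omega
  have hS : ∀ z : ℍ, HasSum (fun n => (qExpansion 1 f).coeff n * Function.Periodic.qParam 1 z ^ n)
      (f z) := fun z => ModularForm.hasSum_qExpansion f one_pos one_mem_strictPeriods_SL z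
  -- the double
  have h1 : HasSum (fun n => (if 2 ∣ n then (qExpansion 1 f).coeff (n / 2) else 0) *
      Function.Periodic.qParam 1 τ ^ n) (f (dbl τ)) := by
    rw [← hinj.hasSum_iff]
    · convert! hS (dbl τ) using 2 with n
      rw [Function.comp_apply, if_pos (Dvd.intro n rfl), Nat.mul_div_cancel_left n (by norm_num),
        qParam_dbl, ← pow_mul]
    · intro n hn
      rw [if_neg, zero_mul]
      rintro ⟨k, rfl⟩
      exact hn ⟨k, rfl⟩
  -- the halves
  have h2 : HasSum (fun n => 2 * ((qExpansion 1 f).coeff (2 * n) *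
      Function.Periodic.qParam 1 τ ^ n)) (f (hf τ) + f (hf1 τ)) := by
    have h3 := (hS (hf τ)).add (hS (hf1 τ))
    rw [← hinj.hasSum_iff] at h3
    · convert! h3 using 2 with n
      rw [Function.comp_apply, qParam_hf1, ← qParam_hf τ]
      rw [pow_mul, pow_mul, neg_sq]
      ring
    · intro n hn
      have hodd : Odd n := by
        rw [← Nat.not_even_iff_odd]
        rintro ⟨k, hk⟩
        exact hn ⟨k, by simp only; omega⟩
      rw [qParam_hf1, hodd.neg_pow]
      ring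
  rw [T2_apply]
  have h4 := (h1.mul_left ((2 : ℂ) ^ (2 * m - 1))).add (h2.div_const 2)
  convert! h4 using 2 with n
  rw [smul_eq_mul]
  ring

theorem finiteDimensional_cuspForm (k : ℤ) : FiniteDimensional ℂ (CuspForm 𝒮ℒ k) :=
  Module.Finite.equiv (CuspForm.discriminantEquiv (k := k)).symm

end Pool.Agent.Helper5.MD
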