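import Pool.Agent.Helper5.MD.MF.A9Basis
import Pool.Agent.Helper5.MD.MF.A10Pair
import Pool.Agent.Helper5.MD.MF.A11Hecke

/-!
# MD-A12 : eigenvectors of the matrix give eigenvalues of `T_2`

Let `m = 2 κ + ε`, `g = ∑ v_j gg_j`, `G = ∑ v_j ggp_j`; `U2 g = α g` (`U2_basis`), `(g, G)` is a pair, zero at infinity.
`h = tr m g G = 2^m G + 2 α g` and `h' = tr m G g = 2^m g + 2 U2 G` are cusp forms of weight `2 m`.
From `h(fr z) = (2z)^(2m) h(2z)` (`cuspForm_sv`, `fr z = sv (dbl z)`) and the pair: `h(2z) = g(z) + 2^(1-m) α G(z)`.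
`T_2 h = 2^(2m-1) h(2z) + U2 h = α h + 2^(m-1) h'`, and `h = U2 (h(2·)) = α g + 2^(1-m) α U2 G = 2^(-m) α h'`, so `h' = (2^m/α) h` and
`T_2 h = (α + 2^(2m-1)/α) h`.  If `h = 0` then `2^m G = - 2 α g` and `g = - 2^(1-m) α G`, so `g = 2^(2-2m) α^2 g`, so `g = 0` and `v = 0` by
`gg_independent`.
-/

open UpperHalfPlane hiding I
open ModularForm MatrixGroups Filter Topology
open scoped Manifold Real Nat

namespace Pool.Agent.Helper5.MD

private theorem zero_sum (s : Finset ℕ) (v : ℕ → ℂ) (f : ℕ → ℍ → ℂ)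
    (hf : ∀ j ∈ s, IsZeroAtImInfty (f j)) :
    IsZeroAtImInfty (fun z => ∑ j ∈ s, v j * f j z) := by
  have h : Tendsto (fun z => ∑ j ∈ s, v j * f j z) atImInfty (𝓝 (∑ j ∈ s, v j * 0)) :=
    tendsto_finsetSum s fun j hj => (hf j hj).const_mul (v j)
  have h1 : ∑ j ∈ s, v j * (0 : ℂ) = 0 := by simp
  rw [h1] at h
  exact h

theorem hasEigenvalue_T2 (ε : Bool) (κ : ℕ) (v : ℕ → ℂ) (α : ℂ)
    (hv : ∃ j ∈ Finset.Ico 1 κ, v j ≠ 0)
    (hev : ∀ i ∈ Finset.Ico 1 κ,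
      ∑ j ∈ Finset.Ico 1 κ, ((aa ε (κ : ℚ) i j : ℚ) : ℂ) * v j = α * v i)
    (h0 : α ≠ 0)
    (hα : α ^ 2 ≠ 2 ^ (2 * (2 * (κ : ℤ) + (if ε then 1 else 0)) - 2)) :
    Module.End.HasEigenvalue (T2 (2 * (κ : ℤ) + (if ε then 1 else 0)))
      (α + 2 ^ (2 * (2 * (κ : ℤ) + (if ε then 1 else 0)) - 1) / α) := by
  have hpj : ∀ j ∈ Finset.Ico 1 κ, IsPair (2 * (κ : ℤ) + (if ε then 1 else 0))
      (gg ε κ j) (ggp ε κ j) := fun j hj => isPair_gg ε κ j (Finset.mem_Ico.1 hj).2.le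
  generalize hm : 2 * (κ : ℤ) + (if ε then 1 else 0) = m at hpj hα ⊢
  set g : ℍ → ℂ := fun z => ∑ j ∈ Finset.Ico 1 κ, v j * gg ε κ j z with hg
  set G : ℍ → ℂ := fun z => ∑ j ∈ Finset.Ico 1 κ, v j * ggp ε κ j z with hG
  have hpair : IsPair m g G := IsPair.sum _ _ _ fun j hj => (hpj j hj).smul (v j)
  have hg0 : IsZeroAtImInfty g := zero_sum _ _ _ fun j hj =>
    gg_zero ε κ j (Finset.mem_Ico.1 hj).1
  have hG0 : IsZeroAtImInfty G := zero_sum _ _ _ fun j hj =>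
    ggp_zero ε κ j (Finset.mem_Ico.1 hj).2
  -- `U2 g = α g`
  have hU : ∀ z, (g (hf z) + g (hf1 z)) / 2 = α * g z := by
    intro z
    have h1 : (g (hf z) + g (hf1 z)) / 2 = ∑ j ∈ Finset.Ico 1 κ, v j * U2 (gg ε κ j) z := by
      simp only [hg, U2]
      rw [← Finset.sum_add_distrib, Finset.sum_div]
      refine Finset.sum_congr rfl fun j _ => ?_
      ring
    rw [h1]
    have h2 : ∀ j ∈ Finset.Ico 1 κ, v j * U2 (gg ε κ j) z =
        ∑ i ∈ Finset.Ico 1 κ, (((aa ε (κ : ℚ) i j : ℚ) : ℂ) * v j) * gg ε κ i z := by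
      intro j hj
      rw [U2_basis ε κ j (Finset.mem_Ico.1 hj).1 (Finset.mem_Ico.1 hj).2 z, Finset.mul_sum]
      refine Finset.sum_congr rfl fun i _ => ?_
      ring
    rw [Finset.sum_congr rfl h2, Finset.sum_comm]
    simp only [hg]
    rw [Finset.mul_sum]
    refine Finset.sum_congr rfl fun i hi => ?_
    rw [← Finset.sum_mul, hev i hi]
    ring
  obtain ⟨h, hh⟩ := exists_trace_cuspForm hpair hg0 hG0
  obtain ⟨h', hh'⟩ := exists_trace_cuspForm hpair.symm hG0 hg0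
  have h2 : (2 : ℂ) ≠ 0 := two_ne_zero
  set t : ℂ := (2 : ℂ) ^ m with ht
  have ht0 : t ≠ 0 := zpow_ne_zero _ h2
  have e1 : (2 : ℂ) ^ (2 * m - 1) = t ^ 2 / 2 := by
    rw [zpow_sub₀ h2, two_mul, zpow_add₀ h2, zpow_one, sq]
  have e2 : (2 : ℂ) ^ (2 * m - 2) = t ^ 2 / 4 := by
    have e3 : (2 : ℂ) ^ (2 : ℤ) = 4 := by norm_num
    rw [zpow_sub₀ h2, two_mul, zpow_add₀ h2, sq, e3]
  have hhz : ∀ z, h z = t * G z + 2 * α * g z := by
    intro z
    rw [hh z]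
    unfold tr
    linear_combination 2 * hU z
  have hhz' : ∀ z, h' z = t * g z + (G (hf z) + G (hf1 z)) := by
    intro z
    rw [hh' z]
    unfold tr
    ring
  -- the value at `2 z`
  have hdbl : ∀ z, t * h (dbl z) = t * g z + 2 * α * G z := by
    intro z
    have h3 := cuspForm_sv h (dbl z)
    have h4 : sv (dbl z) = fr z := by
      apply UpperHalfPlane.ext; simp
    rw [h4, hhz (fr z), hpair.fricke, hpair.symm.fricke, coe_dbl, mul_zpow] at h3
    have hz : (z : ℂ) ^ (2 * m) ≠ 0 := zpow_ne_zero _ z.ne_zero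
    have e3 : (2 : ℂ) ^ (2 * m) = t ^ 2 := by
      rw [two_mul, zpow_add₀ h2, sq]
    rw [e3, ← ht] at h3
    have h5 : ((z : ℂ) ^ (2 * m) * t) * (t * h (dbl z)) =
        ((z : ℂ) ^ (2 * m) * t) * (t * g z + 2 * α * G z) := by
      linear_combination -h3
    exact mul_left_cancel₀ (mul_ne_zero hz ht0) h5
  -- `α h' = t h`
  have hrel : ∀ z, α * h' z = t * h z := by
    intro z
    have h3 := hdbl (hf z)
    have h4 := hdbl (hf1 z)
    rw [dbl_hf] at h3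
    rw [dbl_hf1, cuspForm_sh] at h4
    have h5 := hU z
    rw [hhz' z]
    linear_combination (-(1 : ℂ) / 2) * h3 - (1 / 2) * h4 - t * h5
  have hT : ∀ z, T2 m h z = (α + 2 ^ (2 * m - 1) / α) * h z := by
    intro z
    rw [T2_apply, e1]
    have h3 := hdbl z
    have h4 := hhz (hf z)
    have h5 := hhz (hf1 z)
    have h6 := hhz z
    have h7 := hhz' z
    have h8 := hrel z
    have h9 := hU z
    rw [h4, h5]
    have key : α * (t ^ 2 / 2 * h (dbl z) + (t * G (hf z) + 2 * α * g (hf z) +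
        (t * G (hf1 z) + 2 * α * g (hf1 z))) / 2) = (α ^ 2 + t ^ 2 / 2) * h z := by
      linear_combination (α * t / 2) * h3 + 2 * α ^ 2 * h9 - α ^ 2 * h6 - (α * t / 2) * h7 +
        (t / 2) * h8
    apply mul_left_cancel₀ h0
    rw [key]
    field_simp
  apply Module.End.hasEigenvalue_of_hasEigenvector (x := h)
  refine ⟨Module.End.mem_eigenspace_iff.2 ?_, ?_⟩
  · apply DFunLike.ext
    intro z
    rw [hT z]
    rfl
  · intro hzero
    have hz0 : ∀ z, h z = 0 := fun z => by rw [hzero]; rfl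
    obtain ⟨j, hj, hvj⟩ := hv
    apply hvj
    refine gg_independent ε κ (Finset.Ico 1 κ) v (fun z => ?_) j hj
    have h3 := hdbl z
    have h4 := hhz z
    rw [hz0] at h3 h4
    have h5 : (t ^ 2 / 4 - α ^ 2) * g z = 0 := by
      linear_combination (-t / 4) * h3 + (α / 2) * h4
    rcases mul_eq_zero.1 h5 with h6 | h6
    · exact absurd (by rw [e2]; linear_combination -h6) hα
    · exact h6

end Pool.Agent.Helper5.MD
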