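import Pool.Agent.Helper5.MD.CritDefs
import Pool.Agent.Helper5.MD.MF.A12Eigen

/-!
# MD-A13 : roots of the characteristic polynomial of `MAT` give eigenvalues of `T_2`

A root `α` of the characteristic polynomial of `MAT ε κ` over `ℂ` has an eigenvector `x`; `aa i j = 2^(6 i) MM i j 2^(-6 j)`, so
`v_j = 2^(6 j) x_(j-1)` satisfies the hypothesis of `hasEigenvalue_T2`.
-/

open UpperHalfPlane hiding I
open ModularForm MatrixGroups Filter Topology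
open scoped Manifold Real Nat

namespace Pool.Agent.Helper5.MD

private theorem a13_vec (ε : Bool) (κ : ℕ) (α : ℂ)
    (hr : ((MAT ε κ).map (algebraMap ℚ ℂ)).charpoly.IsRoot α) :
    ∃ x : Fin (κ - 1) → ℂ, x ≠ 0 ∧
      ∀ i, ∑ j, ((MM ε (κ : ℚ) (i.val + 1) (j.val + 1) : ℚ) : ℂ) * x j = α * x i := by
  rw [Polynomial.IsRoot.def, Matrix.eval_charpoly, ← Matrix.exists_mulVec_eq_zero_iff] at hr
  obtain ⟨x, hx, hx2⟩ := hr
  refine ⟨x, hx, fun i => ?_⟩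
  have h1 := congrFun hx2 i
  rw [Matrix.sub_mulVec, Pi.sub_apply, Pi.zero_apply, sub_eq_zero] at h1
  have h2 : (Matrix.scalar (Fin (κ - 1)) α).mulVec x i = α * x i := by
    simp [Matrix.mulVec_diagonal]
  rw [h2] at h1
  rw [h1]
  simp [Matrix.mulVec, dotProduct, MAT]

private theorem a13_aa (ε : Bool) (κ i j : ℕ) :
    ((aa ε (κ : ℚ) i j : ℚ) : ℂ) * 2 ^ (6 * j) =
      2 ^ (6 * i) * ((MM ε (κ : ℚ) i j : ℚ) : ℂ) := by
  have h : aa ε (κ : ℚ) i j * 2 ^ (6 * j) = 2 ^ (6 * i) * MM ε (κ : ℚ) i j := by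
    unfold aa MM
    have h1 : (2 : ℚ) ^ (8 * (i : ℤ) - 4 * j - 1) * 2 ^ (6 * j) =
        2 ^ (6 * i) * 2 ^ (2 * (i : ℤ) + 2 * j - 1) := by
      rw [← zpow_natCast (2 : ℚ) (6 * j), ← zpow_natCast (2 : ℚ) (6 * i),
        ← zpow_add₀ (two_ne_zero), ← zpow_add₀ (two_ne_zero)]
      congr 1
      push_cast
      ring
    calc (2 : ℚ) ^ (8 * (i : ℤ) - 4 * j - 1) * bb ε (κ : ℚ) i j * 2 ^ (6 * j)
        = ((2 : ℚ) ^ (8 * (i : ℤ) - 4 * j - 1) * 2 ^ (6 * j)) * bb ε (κ : ℚ) i j := by ring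
      _ = _ := by rw [h1]; ring
  exact_mod_cast congrArg (fun q : ℚ => (q : ℂ)) h

theorem eigenvalue_of_root (ε : Bool) (κ : ℕ) (α : ℂ)
    (hr : ((MAT ε κ).map (algebraMap ℚ ℂ)).charpoly.IsRoot α) (h0 : α ≠ 0)
    (hα : α ^ 2 ≠ 2 ^ (2 * (2 * (κ : ℤ) + (if ε then 1 else 0)) - 2)) :
    Module.End.HasEigenvalue (T2 (2 * (κ : ℤ) + (if ε then 1 else 0)))
      (α + 2 ^ (2 * (2 * (κ : ℤ) + (if ε then 1 else 0)) - 1) / α) := by
  obtain ⟨x, hx, hx2⟩ := a13_vec ε κ α hr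
  obtain ⟨v, hv⟩ : ∃ v : ℕ → ℂ, ∀ j : Fin (κ - 1), v (1 + j.val) = 2 ^ (6 * (1 + j.val)) * x j := by
    refine ⟨fun j => if h : j - 1 < κ - 1 then 2 ^ (6 * j) * x ⟨j - 1, h⟩ else 0, ?_⟩
    intro j
    have h1 : 1 + j.val - 1 < κ - 1 := by have := j.2; omega
    simp only [h1, dif_pos]
    congr 2
    apply Fin.ext
    show 1 + j.val - 1 = j.val
    omega
  refine hasEigenvalue_T2 ε κ v α ?_ ?_ h0 hα
  · obtain ⟨j, hj⟩ := Function.ne_iff.mp hx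
    refine ⟨1 + j.val, ?_, ?_⟩
    · rw [Finset.mem_Ico]
      have := j.2
      omega
    · rw [hv j]
      exact mul_ne_zero (pow_ne_zero _ two_ne_zero) hj
  · intro i hi
    rw [Finset.mem_Ico] at hi
    obtain ⟨i', rfl⟩ : ∃ i' : Fin (κ - 1), i = 1 + i'.val :=
      ⟨⟨i - 1, by omega⟩, by show i = 1 + (i - 1); omega⟩
    rw [Finset.sum_Ico_eq_sum_range, Finset.sum_range]
    have h1 : ∀ j : Fin (κ - 1),
        ((aa ε (κ : ℚ) (1 + i'.val) (1 + j.val) : ℚ) : ℂ) * v (1 + j.val) =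
          2 ^ (6 * (1 + i'.val)) *
            (((MM ε (κ : ℚ) (i'.val + 1) (j.val + 1) : ℚ) : ℂ) * x j) := by
      intro j
      rw [hv j, ← mul_assoc, a13_aa, add_comm 1 i'.val, add_comm 1 j.val, mul_assoc]
    rw [Finset.sum_congr rfl (fun j _ => h1 j), ← Finset.mul_sum, hx2, hv i']
    ring

end Pool.Agent.Helper5.MD
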