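import Pool.Agent.Helper5.MD.MF.MFDefs

/-!
# MD-A1 : level one forms from transformation laws under `z + 1`, `- 1 / z`
-/

open UpperHalfPlane hiding I
open ModularForm MatrixGroups Filter Topology
open scoped Manifold Real Nat

namespace Pool.Agent.Helper5.MD

theorem A1.T_smul (z : ℍ) : ModularGroup.T • z = sh z := by
  rw [modular_T_smul]
  apply UpperHalfPlane.ext
  rw [coe_sh, UpperHalfPlane.coe_vadd]
  push_cast
  ring

theorem A1.S_smul (z : ℍ) : ModularGroup.S • z = sv z := by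
  rw [UpperHalfPlane.modular_S_smul]
  apply UpperHalfPlane.ext
  rw [coe_sv]
  change (-(z : ℂ))⁻¹ = _
  rw [inv_neg, neg_div, one_div]

theorem A1.slash_T (k : ℤ) (h : ℍ → ℂ) (z : ℍ) : (h ∣[k] ModularGroup.T) z = h (sh z) := by
  have h1 : denom ModularGroup.T z = 1 := by
    rw [ModularGroup.denom_apply]
    simp [ModularGroup.T]
  rw [SL_slash_apply, A1.T_smul, h1, one_zpow, mul_one]

theorem A1.slash_S (k : ℤ) (h : ℍ → ℂ) (z : ℍ) :
    (h ∣[k] ModularGroup.S) z = h (sv z) * (z : ℂ) ^ (-k) := by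
  rw [SL_slash_apply, A1.S_smul, ModularGroup.denom_S]

theorem A1.slash_eq {k : ℤ} {h : ℍ → ℂ} (hT : ∀ z, h (sh z) = h z)
    (hS : ∀ z, h (sv z) = (z : ℂ) ^ k * h z) : ∀ γ : SL(2, ℤ), h ∣[k] γ = h := by
  apply SlashInvariantForm.slash_action_generators_SL2Z
  · funext z
    rw [A1.slash_S, hS, mul_comm, ← mul_assoc, ← zpow_add₀ z.ne_zero, neg_add_cancel, zpow_zero,
      one_mul]
  · funext z
    rw [A1.slash_T, hT]

theorem exists_modularForm (k : ℤ) (h : ℍ → ℂ) (hd : MDiff h) (hT : ∀ z, h (sh z) = h z)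
    (hS : ∀ z, h (sv z) = (z : ℂ) ^ k * h z) (hb : IsBoundedAtImInfty h) :
    ∃ F : ModularForm 𝒮ℒ k, ∀ z, F z = h z := by
  refine ⟨{ toFun := h
            slash_action_eq' := ?_
            holo' := hd
            bdd_at_cusps' := ?_ }, fun z => rfl⟩
  · rintro A ⟨A, rfl⟩
    exact A1.slash_eq hT hS A
  · intro c hc
    rw [Subgroup.IsArithmetic.isCusp_iff_isCusp_SL2Z] at hc
    rw [OnePoint.isBoundedAt_iff_forall_SL2Z hc]
    intro γ _
    rw [A1.slash_eq hT hS]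
    exact hb

theorem exists_cuspForm (k : ℤ) (h : ℍ → ℂ) (hd : MDiff h) (hT : ∀ z, h (sh z) = h z)
    (hS : ∀ z, h (sv z) = (z : ℂ) ^ k * h z) (hb : IsZeroAtImInfty h) :
    ∃ F : CuspForm 𝒮ℒ k, ∀ z, F z = h z := by
  refine ⟨{ toFun := h
            slash_action_eq' := ?_
            holo' := hd
            zero_at_cusps' := ?_ }, fun z => rfl⟩
  · rintro A ⟨A, rfl⟩
    exact A1.slash_eq hT hS A
  · intro c hc
    rw [Subgroup.IsArithmetic.isCusp_iff_isCusp_SL2Z] at hc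
    rw [OnePoint.isZeroAt_iff_forall_SL2Z hc]
    intro γ _
    rw [A1.slash_eq hT hS]
    exact hb

theorem A1.form_sh {k : ℤ} {E : Type*} [FunLike E ℍ ℂ] [SlashInvariantFormClass E 𝒮ℒ k] (F : E)
    (z : ℍ) : F (sh z) = F z := by
  have h1 : (F : ℍ → ℂ) ∣[k] ModularGroup.T = F :=
    SlashInvariantFormClass.slash_action_eq F _ ⟨ModularGroup.T, rfl⟩
  have h2 := congrFun h1 z
  rwa [A1.slash_T] at h2

theorem A1.form_sv {k : ℤ} {E : Type*} [FunLike E ℍ ℂ] [SlashInvariantFormClass E 𝒮ℒ k] (F : E)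
    (z : ℍ) : F (sv z) = (z : ℂ) ^ k * F z := by
  have h1 : (F : ℍ → ℂ) ∣[k] ModularGroup.S = F :=
    SlashInvariantFormClass.slash_action_eq F _ ⟨ModularGroup.S, rfl⟩
  have h2 := congrFun h1 z
  rw [A1.slash_S] at h2
  rw [← h2, mul_comm, mul_assoc, ← zpow_add₀ z.ne_zero, neg_add_cancel, zpow_zero, mul_one]

theorem modularForm_sh {k : ℤ} (F : ModularForm 𝒮ℒ k) (z : ℍ) : F (sh z) = F z :=
  A1.form_sh F z

theorem modularForm_sv {k : ℤ} (F : ModularForm 𝒮ℒ k) (z : ℍ) :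
    F (sv z) = (z : ℂ) ^ k * F z :=
  A1.form_sv F z

theorem cuspForm_sh {k : ℤ} (F : CuspForm 𝒮ℒ k) (z : ℍ) : F (sh z) = F z :=
  A1.form_sh F z

theorem cuspForm_sv {k : ℤ} (F : CuspForm 𝒮ℒ k) (z : ℍ) :
    F (sv z) = (z : ℂ) ^ k * F z :=
  A1.form_sv F z

theorem cuspForm_isZero {k : ℤ} (F : CuspForm 𝒮ℒ k) : IsZeroAtImInfty F := by
  have := F.zero_at_cusps' (c := OnePoint.infty) ?_
  · exact OnePoint.isZeroAt_infty_iff.1 this
  · rw [Subgroup.IsArithmetic.isCusp_iff_isCusp_SL2Z]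
    exact isCusp_SL2Z_iff'.2 ⟨1, by simp⟩

theorem A1.mdiff_dbl {g : ℍ → ℂ} (hg : MDiff g) : MDiff (fun z : ℍ => g (dbl z)) := by
  rw [UpperHalfPlane.mdifferentiable_iff] at hg ⊢
  have h1 : DifferentiableOn ℂ (fun w : ℂ => 2 * w) {w : ℂ | 0 < w.im} := by fun_prop
  have h2 : Set.MapsTo (fun w : ℂ => 2 * w) {w : ℂ | 0 < w.im} {w : ℂ | 0 < w.im} := by
    intro w hw
    have : 0 < w.im := hw
    simpa using this
  refine (hg.comp h1 h2).congr fun w hw => ?_
  have hw' : 0 < w.im := hw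
  have hw2 : 0 < (2 * w).im := by simpa using hw'
  simp only [Function.comp_apply]
  rw [ofComplex_apply_of_im_pos hw', ofComplex_apply_of_im_pos hw2]
  rfl

theorem A1.isPair {m : ℤ} {E : Type*} [FunLike E ℍ ℂ] [SlashInvariantFormClass E 𝒮ℒ (2 * m)]
    (F : E) (hF : MDiff (F : ℍ → ℂ)) : IsPair m F (fun z => 2 ^ m * F (dbl z)) where
  holo := hF
  holo' := by
    have h1 := A1.mdiff_dbl hF
    rw [UpperHalfPlane.mdifferentiable_iff] at h1 ⊢
    exact h1.const_mul ((2 : ℂ) ^ m)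
  per z := A1.form_sh F z
  per' z := by
    have h1 : dbl (sh z) = sh (sh (dbl z)) := by
      apply UpperHalfPlane.ext
      simp
      ring
    rw [h1, A1.form_sh F, A1.form_sh F]
  fricke z := by
    have h1 : fr z = sv (dbl z) := by
      apply UpperHalfPlane.ext
      simp
    rw [h1, A1.form_sv F, coe_dbl, mul_zpow, zpow_mul (2 : ℂ) 2 m]
    have h2 : (2 : ℂ) ^ (2 * m) = 2 ^ m * 2 ^ m := by
      rw [two_mul, zpow_add₀ two_ne_zero]
    rw [← zpow_mul, h2]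
    ring

/-- level one form and its double form a pair -/
theorem isPair_of_cuspForm {m : ℤ} (F : CuspForm 𝒮ℒ (2 * m)) :
    IsPair m F (fun z => 2 ^ m * F (dbl z)) :=
  A1.isPair F F.holo'

theorem isPair_of_modularForm {m : ℤ} (F : ModularForm 𝒮ℒ (2 * m)) :
    IsPair m F (fun z => 2 ^ m * F (dbl z)) :=
  A1.isPair F F.holo'

end Pool.Agent.Helper5.MD
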