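import Pool.Agent.Helper5.MD.MF.MFDefs

/-!
# MD-A2 : behaviour at `i ∞`

`decay`: a holomorphic function of period one which tends to zero at `i ∞` is `O(exp (- 2 π y))`
(Mathlib: `Function.Periodic.exp_decay_of_zero_at_inf` or the proof of `CuspFormClass.exp_decay_atImInfty`).
-/

open UpperHalfPlane hiding I
open ModularForm MatrixGroups Filter Topology
open scoped Manifold Real Nat

namespace Pool.Agent.Helper5.MD

theorem periodic_comp {g : ℍ → ℂ} (hp : ∀ z, g (sh z) = g z) :
    Function.Periodic (g ∘ ofComplex) ((1 : ℝ) : ℂ) := by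
  intro w
  by_cases hw : 0 < w.im
  · have h1 : 0 < (w + ((1 : ℝ) : ℂ)).im := by simpa using hw
    simp only [Function.comp_apply, ofComplex_apply_of_im_pos h1, ofComplex_apply_of_im_pos hw]
    rw [← hp ⟨w, hw⟩]
    congr 1
  · have hw' : w.im ≤ 0 := not_lt.mp hw
    have h1 : (w + ((1 : ℝ) : ℂ)).im ≤ 0 := by simpa using hw'
    simp only [Function.comp_apply, ofComplex_apply_of_im_nonpos h1,
      ofComplex_apply_of_im_nonpos hw']

theorem decay {g : ℍ → ℂ} (hd : MDiff g) (hp : ∀ z, g (sh z) = g z) (h0 : IsZeroAtImInfty g) :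
    ∃ C A : ℝ, ∀ z : ℍ, A ≤ z.im → ‖g z‖ ≤ C * Real.exp (-2 * π * z.im) := by
  have hO := UpperHalfPlane.IsZeroAtImInfty.exp_decay_atImInfty (h := 1) h0 one_pos
    (periodic_comp hp) hd h0.isBoundedAtImInfty
  obtain ⟨C, hC⟩ := hO.bound
  obtain ⟨A, hA⟩ := (atImInfty_mem _).mp hC
  refine ⟨C, A, fun z hz => ?_⟩
  have h := hA z hz
  simpa [Real.norm_eq_abs, abs_of_pos (Real.exp_pos _)] using h

theorem tendsto_im {f : ℍ → ℍ} {c : ℝ} (hc : 0 < c) (h : ∀ z, (f z).im = c * z.im) :
    Tendsto f atImInfty atImInfty := by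
  rw [atImInfty, tendsto_comap_iff]
  have : (UpperHalfPlane.im ∘ f) = fun z => c * z.im := funext h
  rw [this]
  exact Tendsto.const_mul_atTop hc tendsto_comap

theorem tendsto_dbl : Tendsto dbl atImInfty atImInfty := by
  refine tendsto_im (c := 2) (by norm_num) fun z => ?_
  rw [← coe_im, coe_dbl]; simp

theorem tendsto_hf : Tendsto hf atImInfty atImInfty := by
  refine tendsto_im (c := 1 / 2) (by norm_num) fun z => ?_
  rw [← coe_im, coe_hf]; simp; ring

theorem tendsto_hf1 : Tendsto hf1 atImInfty atImInfty := by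
  refine tendsto_im (c := 1 / 2) (by norm_num) fun z => ?_
  rw [← coe_im, coe_hf1]; simp; ring

end Pool.Agent.Helper5.MD
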