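import Pool.Agent.Helper5.MD.MF.A0Ident

/-!
# MD-A3 : pairs and the three conjugates

`Y0 = 2^m G(z)`, `Y1 = g(z/2)`, `Y2 = g((z+1)/2)`.  Under `z ↦ z + 1` : `Y0` fixed, `Y1 ↔ Y2`.
Under `z ↦ -1/z` (weight `2 m`): `Y1(-1/z) = g(fr z) = z^(2m) Y0(z)`, `Y0(-1/z) = 2^m G(fr (z/2)) = z^(2m) Y1(z)`
and `Y2(-1/z) = g((z-1)/(2z)) = z^(2m) Y2(z)`: put `w = (z+1)/2`, `p = (w-1)/(2w-1) = (z-1)/(2z)`; then
`fr p = fr (w - 1) - 1`, so `G(fr p) = G(fr(w-1)) = 2^m (w-1)^(2m) g(w-1) = 2^m (w-1)^(2m) g(w)` and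
`g(p) = g(fr (fr p)) = 2^m (fr p)^(2m) G(fr p) = (2w-1)^(2m) g(w)`.
`symm`: put `fr z` in `fricke` and use `fr_fr`.
-/

open UpperHalfPlane hiding I
open ModularForm MatrixGroups Filter Topology
open scoped Manifold Real Nat

namespace Pool.Agent.Helper5.MD

theorem zpow_two_mul' (x : ℂ) (m : ℤ) : x ^ (2 * m) = (x ^ 2) ^ m := by
  rw [zpow_mul]; rfl

theorem IsPair.symm {m : ℤ} {g G : ℍ → ℂ} (h : IsPair m g G) : IsPair m G g := by
  refine ⟨h.holo', h.holo, h.per', h.per, fun z => ?_⟩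
  have h1 := h.fricke (fr z)
  rw [fr_fr, coe_fr] at h1
  have hz := z.ne_zero
  have key : (2 : ℂ) ^ m * (z : ℂ) ^ (2 * m) * (2 ^ m * (-1 / (2 * (z : ℂ))) ^ (2 * m)) = 1 := by
    rw [zpow_two_mul', zpow_two_mul', ← mul_zpow, ← mul_zpow, ← mul_zpow]
    have : (2 : ℂ) * (z : ℂ) ^ 2 * (2 * (-1 / (2 * (z : ℂ))) ^ 2) = 1 := by
      field_simp
    rw [this, one_zpow]
  rw [h1]
  calc G (fr z) = 1 * G (fr z) := (one_mul _).symm
    _ = ((2 : ℂ) ^ m * (z : ℂ) ^ (2 * m) * (2 ^ m * (-1 / (2 * (z : ℂ))) ^ (2 * m))) * G (fr z) := by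
        rw [key]
    _ = _ := by ring

theorem IsPair.add {m : ℤ} {g G g' G' : ℍ → ℂ} (h : IsPair m g G) (h' : IsPair m g' G') :
    IsPair m (fun z => g z + g' z) (fun z => G z + G' z) := by
  refine ⟨h.holo.add h'.holo, h.holo'.add h'.holo', fun z => ?_, fun z => ?_, fun z => ?_⟩
  · simp only [h.per, h'.per]
  · simp only [h.per', h'.per']
  · simp only [h.fricke, h'.fricke]; ring

theorem IsPair.smul {m : ℤ} {g G : ℍ → ℂ} (c : ℂ) (h : IsPair m g G) :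
    IsPair m (fun z => c * g z) (fun z => c * G z) := by
  refine ⟨mdifferentiable_const.mul h.holo, mdifferentiable_const.mul h.holo',
    fun z => ?_, fun z => ?_, fun z => ?_⟩
  · simp only [h.per]
  · simp only [h.per']
  · simp only [h.fricke]; ring

theorem IsPair.zero {m : ℤ} : IsPair m (fun _ => 0) (fun _ => 0) :=
  ⟨mdifferentiable_const, mdifferentiable_const, fun _ => rfl, fun _ => rfl, fun z => by simp⟩

theorem IsPair.sum {m : ℤ} {ι : Type*} (s : Finset ι) (g G : ι → ℍ → ℂ)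
    (h : ∀ i ∈ s, IsPair m (g i) (G i)) :
    IsPair m (fun z => ∑ i ∈ s, g i z) (fun z => ∑ i ∈ s, G i z) := by
  classical
  induction s using Finset.induction_on with
  | empty => simpa using IsPair.zero (m := m)
  | insert a s ha ih =>
    have h1 := h a (Finset.mem_insert_self a s)
    have h2 := ih (fun i hi => h i (Finset.mem_insert_of_mem hi))
    have h3 := h1.add h2
    simpa only [Finset.sum_insert ha] using h3

theorem pair_Y0 {m : ℤ} {g G : ℍ → ℂ} (h : IsPair m g G) (z : ℍ) :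
    2 ^ m * G (sv z) = (z : ℂ) ^ (2 * m) * g (hf z) := by
  have h1 := h.symm.fricke (hf z)
  rw [fr_hf, coe_hf] at h1
  rw [h1]
  have key : (2 : ℂ) ^ m * (2 ^ m * ((z : ℂ) / 2) ^ (2 * m)) = (z : ℂ) ^ (2 * m) := by
    rw [zpow_two_mul', zpow_two_mul', ← mul_zpow, ← mul_zpow]
    congr 1
    ring
  rw [← mul_assoc, key]

theorem pair_Y1 {m : ℤ} {g G : ℍ → ℂ} (h : IsPair m g G) (z : ℍ) :
    g (hf (sv z)) = (z : ℂ) ^ (2 * m) * (2 ^ m * G z) := by
  rw [hf_sv, h.fricke]; ring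

theorem pair_Y2 {m : ℤ} {g G : ℍ → ℂ} (h : IsPair m g G) (z : ℍ) :
    g (hf1 (sv z)) = (z : ℂ) ^ (2 * m) * g (hf1 z) := by
  have hz := z.ne_zero
  have him := z.im_pos
  have hz1 : (z : ℂ) - 1 ≠ 0 := by
    intro e
    have := congrArg Complex.im e
    simp at this
    exact him.ne' this
  set v : ℍ := ⟨((z : ℂ) - 1) / 2, by simpa using him⟩ with hv
  have hvc : (v : ℂ) = ((z : ℂ) - 1) / 2 := rfl
  have e1 : sh v = hf1 z := by
    apply UpperHalfPlane.ext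
    rw [coe_sh, coe_hf1, hvc]; ring
  have e2 : sh (fr (hf1 (sv z))) = fr v := by
    apply UpperHalfPlane.ext
    rw [coe_sh, coe_fr, coe_fr, coe_hf1, coe_sv, hvc]
    have h2 : (-1 / (z : ℂ) + 1) = ((z : ℂ) - 1) / z := by field_simp; ring
    rw [h2]
    field_simp
    ring
  have h1 : G (fr (hf1 (sv z))) = 2 ^ m * (v : ℂ) ^ (2 * m) * g (hf1 z) := by
    rw [← h.per', e2, h.symm.fricke, ← e1, h.per]
  have h3 := h.fricke (fr (hf1 (sv z)))
  rw [fr_fr, h1] at h3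
  rw [h3]
  have key : (2 : ℂ) ^ m * ((fr (hf1 (sv z)) : ℍ) : ℂ) ^ (2 * m) * (2 ^ m * (v : ℂ) ^ (2 * m))
      = (z : ℂ) ^ (2 * m) := by
    rw [zpow_two_mul', zpow_two_mul', zpow_two_mul', ← mul_zpow, ← mul_zpow, ← mul_zpow]
    congr 1
    rw [coe_fr, coe_hf1, coe_sv, hvc]
    have h2 : (-1 / (z : ℂ) + 1) = ((z : ℂ) - 1) / z := by field_simp; ring
    rw [h2]
    field_simp
  rw [← mul_assoc, key]

end Pool.Agent.Helper5.MD
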