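import Pool.Agent.Helper5.MD.MF.A1Forms
import Pool.Agent.Helper5.MD.MF.A2Infty
import Pool.Agent.Helper5.MD.MF.A3Pair

/-!
# MD-A4 : trace and norm, vanishing of small weight pairs

From `pair_Y0`, `pair_Y1`, `pair_Y2` and `hf_sh`, `hf1_sh`: the elementary symmetric functions `tr`, `tr2`, `nm` of
`Y0, Y1, Y2` are invariant of weights `2 m`, `4 m`, `6 m`.
`pair_four_eq_zero`: if `m = 2` and `g, G` tend to zero, then `tr ∈ S_4 = 0`, `tr2 ∈ S_8 = 0`
(`CuspForm.rank_eq_zero_of_weight_lt_twelve`), `nm ∈ S_12 = ℂ Δ` (`CuspForm.exists_smul_discriminant_of_weight_eq_twelve`)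
and `nm = O(exp (-4 π y))` by `decay`, while `exp (- 2 π y) = O(Δ)` (`exp_isBigO_discriminant`), so `nm = 0`;
then `Y1 ^ 3 = tr Y1^2 - tr2 Y1 + nm = 0`, so `g (hf z) = 0` for all `z`.
-/

open UpperHalfPlane hiding I
open ModularForm MatrixGroups Filter Topology
open scoped Manifold Real Nat

namespace Pool.Agent.Helper5.MD

private theorem a4_add {a b : ℍ → ℂ} (ha : MDiff a) (hb : MDiff b) :
    MDiff (fun z => a z + b z) := ha.add hb

private theorem a4_mul {a b : ℍ → ℂ} (ha : MDiff a) (hb : MDiff b) :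
    MDiff (fun z => a z * b z) := ha.mul hb

private theorem a4_cmul {a : ℍ → ℂ} (c : ℂ) (ha : MDiff a) :
    MDiff (fun z => c * a z) := ha.const_smul c

private theorem a4_im_hf (z : ℍ) : (hf z).im = z.im / 2 := by
  change ((hf z : ℍ) : ℂ).im = (z : ℂ).im / 2
  rw [coe_hf]
  simp

private theorem a4_im_hf1 (z : ℍ) : (hf1 z).im = z.im / 2 := by
  change ((hf1 z : ℍ) : ℂ).im = (z : ℂ).im / 2
  rw [coe_hf1]
  simp

private theorem a4_bcomp {g : ℍ → ℂ} (hg : IsBoundedAtImInfty g) {f : ℍ → ℍ}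
    (hf : Tendsto f atImInfty atImInfty) : IsBoundedAtImInfty (fun z => g (f z)) := by
  have h : g =O[atImInfty] (1 : ℍ → ℝ) := hg
  exact h.comp_tendsto hf

private theorem a4_zcomp {g : ℍ → ℂ} (hg : IsZeroAtImInfty g) {f : ℍ → ℍ}
    (hf : Tendsto f atImInfty atImInfty) : IsZeroAtImInfty (fun z => g (f z)) := by
  have h : Tendsto g atImInfty (𝓝 0) := hg
  exact h.comp hf

private theorem a4_zadd {a b : ℍ → ℂ} (ha : IsZeroAtImInfty a) (hb : IsZeroAtImInfty b) :
    IsZeroAtImInfty (fun z => a z + b z) := ZeroAtFilter.add ha hb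

private theorem a4_zmul {a b : ℍ → ℂ} (ha : IsZeroAtImInfty a) (hb : IsBoundedAtImInfty b) :
    IsZeroAtImInfty (fun z => a z * b z) := ZeroAtFilter.mul_boundedAtFilter ha hb

private theorem a4_zc {a : ℍ → ℂ} (c : ℂ) (ha : IsZeroAtImInfty a) :
    IsZeroAtImInfty (fun z => c * a z) := ZeroAtFilter.smul c ha

private theorem a4_badd {a b : ℍ → ℂ} (ha : IsBoundedAtImInfty a) (hb : IsBoundedAtImInfty b) :
    IsBoundedAtImInfty (fun z => a z + b z) := BoundedAtFilter.add ha hb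

private theorem a4_bmul {a b : ℍ → ℂ} (ha : IsBoundedAtImInfty a) (hb : IsBoundedAtImInfty b) :
    IsBoundedAtImInfty (fun z => a z * b z) := BoundedAtFilter.mul ha hb

private theorem a4_bc {a : ℍ → ℂ} (c : ℂ) (ha : IsBoundedAtImInfty a) :
    IsBoundedAtImInfty (fun z => c * a z) := BoundedAtFilter.smul c ha

private theorem a4_holo_tr {m : ℤ} {g G : ℍ → ℂ} (h : IsPair m g G) : MDiff (tr m g G) :=
  a4_add (a4_add (a4_cmul (2 ^ m) h.holo') (mdiff_hf h.holo)) (mdiff_hf1 h.holo)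

private theorem a4_holo_tr2 {m : ℤ} {g G : ℍ → ℂ} (h : IsPair m g G) : MDiff (tr2 m g G) :=
  a4_add (a4_mul (a4_cmul (2 ^ m) h.holo') (a4_add (mdiff_hf h.holo) (mdiff_hf1 h.holo)))
    (a4_mul (mdiff_hf h.holo) (mdiff_hf1 h.holo))

private theorem a4_holo_nm {m : ℤ} {g G : ℍ → ℂ} (h : IsPair m g G) : MDiff (nm m g G) :=
  a4_mul (a4_cmul (2 ^ m) h.holo') (a4_mul (mdiff_hf h.holo) (mdiff_hf1 h.holo))

private theorem a4_sh {m : ℤ} {g G : ℍ → ℂ} (h : IsPair m g G) (z : ℍ) :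
    G (sh z) = G z ∧ g (hf (sh z)) = g (hf1 z) ∧ g (hf1 (sh z)) = g (hf z) := by
  refine ⟨h.per' z, by rw [hf_sh], by rw [hf1_sh, h.per]⟩

theorem exists_trace_modularForm {m : ℤ} {g G : ℍ → ℂ} (h : IsPair m g G)
    (hg : IsBoundedAtImInfty g) (hG : IsBoundedAtImInfty G) :
    ∃ F : ModularForm 𝒮ℒ (2 * m), ∀ z, F z = tr m g G z := by
  refine exists_modularForm (2 * m) (tr m g G) (a4_holo_tr h) (fun z => ?_) (fun z => ?_) ?_
  · obtain ⟨h1, h2, h3⟩ := a4_sh h z
    simp only [tr, h1, h2, h3]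
    ring
  · simp only [tr, pair_Y0 h z, pair_Y1 h z, pair_Y2 h z]
    ring
  · exact a4_badd (a4_badd (a4_bc _ hG) (a4_bcomp hg tendsto_hf)) (a4_bcomp hg tendsto_hf1)

theorem exists_trace_cuspForm {m : ℤ} {g G : ℍ → ℂ} (h : IsPair m g G)
    (hg : IsZeroAtImInfty g) (hG : IsZeroAtImInfty G) :
    ∃ F : CuspForm 𝒮ℒ (2 * m), ∀ z, F z = tr m g G z := by
  refine exists_cuspForm (2 * m) (tr m g G) (a4_holo_tr h) (fun z => ?_) (fun z => ?_) ?_
  · obtain ⟨h1, h2, h3⟩ := a4_sh h z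
    simp only [tr, h1, h2, h3]
    ring
  · simp only [tr, pair_Y0 h z, pair_Y1 h z, pair_Y2 h z]
    ring
  · exact a4_zadd (a4_zadd (a4_zc _ hG) (a4_zcomp hg tendsto_hf)) (a4_zcomp hg tendsto_hf1)

theorem exists_trace2_cuspForm {m : ℤ} {g G : ℍ → ℂ} (h : IsPair m g G)
    (hg : IsZeroAtImInfty g) (hG : IsZeroAtImInfty G) :
    ∃ F : CuspForm 𝒮ℒ (4 * m), ∀ z, F z = tr2 m g G z := by
  refine exists_cuspForm (4 * m) (tr2 m g G) (a4_holo_tr2 h) (fun z => ?_) (fun z => ?_) ?_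
  · obtain ⟨h1, h2, h3⟩ := a4_sh h z
    simp only [tr2, h1, h2, h3]
    ring
  · have hz : (z : ℂ) ≠ 0 := z.ne_zero
    have e : (z : ℂ) ^ (4 * m) = (z : ℂ) ^ (2 * m) * (z : ℂ) ^ (2 * m) := by
      rw [← zpow_add₀ hz]
      congr 1
      ring
    simp only [tr2, pair_Y0 h z, pair_Y1 h z, pair_Y2 h z, e]
    ring
  · have hgb : IsBoundedAtImInfty g := hg.isBoundedAtImInfty
    exact a4_zadd (a4_zmul (a4_zc _ hG) (a4_badd (a4_bcomp hgb tendsto_hf)
      (a4_bcomp hgb tendsto_hf1))) (a4_zmul (a4_zcomp hg tendsto_hf) (a4_bcomp hgb tendsto_hf1))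

/-- it suffices that `G` vanishes at infinity for the norm to be a cusp form -/
theorem exists_norm_cuspForm {m : ℤ} {g G : ℍ → ℂ} (h : IsPair m g G)
    (hg : IsBoundedAtImInfty g) (hG : IsZeroAtImInfty G) :
    ∃ F : CuspForm 𝒮ℒ (6 * m), ∀ z, F z = nm m g G z := by
  refine exists_cuspForm (6 * m) (nm m g G) (a4_holo_nm h) (fun z => ?_) (fun z => ?_) ?_
  · obtain ⟨h1, h2, h3⟩ := a4_sh h z
    simp only [nm, h1, h2, h3]
    ring
  · have hz : (z : ℂ) ≠ 0 := z.ne_zero
    have e : (z : ℂ) ^ (6 * m) = (z : ℂ) ^ (2 * m) * ((z : ℂ) ^ (2 * m) * (z : ℂ) ^ (2 * m)) := by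
      rw [← zpow_add₀ hz, ← zpow_add₀ hz]
      congr 1
      ring
    simp only [nm, pair_Y0 h z, pair_Y1 h z, pair_Y2 h z, e]
    ring
  · exact a4_zmul (a4_zc _ hG) (a4_bmul (a4_bcomp hg tendsto_hf) (a4_bcomp hg tendsto_hf1))

theorem pair_four_eq_zero {g G : ℍ → ℂ} (h : IsPair 2 g G)
    (hg : IsZeroAtImInfty g) (hG : IsZeroAtImInfty G) (z : ℍ) : g z = 0 := by
  -- the trace and the second symmetric function vanish
  have ht : ∀ z, tr 2 g G z = 0 := by
    obtain ⟨F, hF⟩ := exists_trace_cuspForm h hg hG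
    have h0 : F = 0 := rank_zero_iff_forall_zero.1
      (CuspForm.rank_eq_zero_of_weight_lt_twelve (k := 2 * 2) (by norm_num)) F
    intro z
    rw [← hF z, h0]
    rfl
  have ht2 : ∀ z, tr2 2 g G z = 0 := by
    obtain ⟨F, hF⟩ := exists_trace2_cuspForm h hg hG
    have h0 : F = 0 := rank_zero_iff_forall_zero.1
      (CuspForm.rank_eq_zero_of_weight_lt_twelve (k := 4 * 2) (by norm_num)) F
    intro z
    rw [← hF z, h0]
    rfl
  -- the norm is a multiple of the discriminant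
  obtain ⟨c, hc⟩ : ∃ c : ℂ, ∀ z, nm 2 g G z = c * ModularForm.discriminant z := by
    obtain ⟨F, hF⟩ := exists_norm_cuspForm h hg.isBoundedAtImInfty hG
    obtain ⟨c, hc⟩ := CuspForm.exists_smul_discriminant_of_weight_eq_twelve
      (CuspForm.mcast (by norm_num) F)
    refine ⟨c, fun z => ?_⟩
    rw [← hF z]
    have := DFunLike.congr_fun hc z
    exact this.symm
  have hc0 : c = 0 := by
    by_contra hc0
    obtain ⟨C1, A1, h1⟩ := decay h.holo h.per hg
    obtain ⟨C2, A2, h2⟩ := decay h.holo' h.per' hG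
    obtain ⟨K, hK⟩ := (exp_isBigO_discriminant).bound
    obtain ⟨A3, hA3⟩ := (atImInfty_mem _).1 hK
    have hcpos : 0 < ‖c‖ := norm_pos_iff.2 hc0
    -- the bound for one point
    have key : ∀ z : ℍ, 2 * A1 ≤ z.im → A2 ≤ z.im → A3 ≤ z.im →
        Real.exp (2 * π * z.im) ≤ |K| * (4 * |C2| * |C1| * |C1|) / ‖c‖ := by
      intro z hz1 hz2 hz3
      have e1 : ‖g (hf z)‖ ≤ |C1| * Real.exp (-π * z.im) := by
        have := h1 (hf z) (by rw [a4_im_hf]; linarith)
        rw [a4_im_hf] at this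
        calc ‖g (hf z)‖ ≤ C1 * Real.exp (-2 * π * (z.im / 2)) := this
          _ ≤ |C1| * Real.exp (-2 * π * (z.im / 2)) :=
              mul_le_mul_of_nonneg_right (le_abs_self _) (Real.exp_pos _).le
          _ = |C1| * Real.exp (-π * z.im) := by congr 2; ring
      have e2 : ‖g (hf1 z)‖ ≤ |C1| * Real.exp (-π * z.im) := by
        have := h1 (hf1 z) (by rw [a4_im_hf1]; linarith)
        rw [a4_im_hf1] at this
        calc ‖g (hf1 z)‖ ≤ C1 * Real.exp (-2 * π * (z.im / 2)) := this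
          _ ≤ |C1| * Real.exp (-2 * π * (z.im / 2)) :=
              mul_le_mul_of_nonneg_right (le_abs_self _) (Real.exp_pos _).le
          _ = |C1| * Real.exp (-π * z.im) := by congr 2; ring
      have e3 : ‖G z‖ ≤ |C2| * Real.exp (-2 * π * z.im) :=
        (h2 z hz2).trans (mul_le_mul_of_nonneg_right (le_abs_self _) (Real.exp_pos _).le)
      have e4 : ‖nm 2 g G z‖ ≤ 4 * |C2| * |C1| * |C1| * Real.exp (-4 * π * z.im) := by
        have : ‖nm 2 g G z‖ = 4 * ‖G z‖ * (‖g (hf z)‖ * ‖g (hf1 z)‖) := by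
          simp only [nm, norm_mul]
          norm_num
        rw [this]
        calc 4 * ‖G z‖ * (‖g (hf z)‖ * ‖g (hf1 z)‖)
            ≤ 4 * (|C2| * Real.exp (-2 * π * z.im)) *
              ((|C1| * Real.exp (-π * z.im)) * (|C1| * Real.exp (-π * z.im))) := by
              gcongr
          _ = 4 * |C2| * |C1| * |C1| * (Real.exp (-2 * π * z.im) *
              (Real.exp (-π * z.im) * Real.exp (-π * z.im))) := by ring
          _ = _ := by
              rw [← Real.exp_add, ← Real.exp_add]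
              congr 2
              ring
      have e5 : Real.exp (-2 * π * z.im) ≤ |K| * ‖ModularForm.discriminant z‖ := by
        have := hA3 z hz3
        simp only [Set.mem_ofPred_eq, Real.norm_eq_abs, abs_of_pos (Real.exp_pos _)] at this
        exact this.trans (mul_le_mul_of_nonneg_right (le_abs_self _) (norm_nonneg _))
      have e6 : ‖ModularForm.discriminant z‖ = ‖nm 2 g G z‖ / ‖c‖ := by
        rw [hc z, norm_mul, mul_div_cancel_left₀ _ hcpos.ne']
      have e7 : Real.exp (-2 * π * z.im) ≤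
          |K| * (4 * |C2| * |C1| * |C1| * Real.exp (-4 * π * z.im) / ‖c‖) := by
        rw [e6] at e5
        refine e5.trans ?_
        gcongr
      have e8 : Real.exp (2 * π * z.im) = Real.exp (4 * π * z.im) * Real.exp (-2 * π * z.im) := by
        rw [← Real.exp_add]
        congr 1
        ring
      have e9 : Real.exp (4 * π * z.im) * Real.exp (-4 * π * z.im) = 1 := by
        rw [← Real.exp_add, ← Real.exp_zero]
        congr 1
        ring
      calc Real.exp (2 * π * z.im) = Real.exp (4 * π * z.im) * Real.exp (-2 * π * z.im) := e8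
        _ ≤ Real.exp (4 * π * z.im) *
            (|K| * (4 * |C2| * |C1| * |C1| * Real.exp (-4 * π * z.im) / ‖c‖)) := by gcongr
        _ = (Real.exp (4 * π * z.im) * Real.exp (-4 * π * z.im)) *
            (|K| * (4 * |C2| * |C1| * |C1|) / ‖c‖) := by ring
        _ = _ := by rw [e9, one_mul]
    set B : ℝ := |K| * (4 * |C2| * |C1| * |C1|) / ‖c‖ with hB
    set y : ℝ := max (max (2 * A1) A2) (max A3 (max B 1)) with hy
    have hy1 : 1 ≤ y := (le_max_right _ _).trans ((le_max_right _ _).trans (le_max_right _ _))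
    have hyB : B ≤ y := (le_max_left _ _).trans ((le_max_right _ _).trans (le_max_right _ _))
    have hy0 : 0 < y := by linarith
    have hk := key ⟨⟨0, y⟩, hy0⟩ ((le_max_left _ _).trans (le_max_left _ _))
      ((le_max_right _ _).trans (le_max_left _ _)) ((le_max_left _ _).trans (le_max_right _ _))
    have him : (⟨⟨0, y⟩, hy0⟩ : ℍ).im = y := rfl
    rw [him] at hk
    have h3 : 2 * π * y + 1 ≤ Real.exp (2 * π * y) := Real.add_one_le_exp _
    have h4 : y ≤ 2 * π * y := by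
      have := Real.pi_gt_three
      nlinarith
    linarith
  have hn : ∀ z, nm 2 g G z = 0 := by
    intro z
    rw [hc z, hc0, zero_mul]
  -- the cubic equation
  have hw : g (hf (dbl z)) = 0 := by
    have a1 := ht (dbl z)
    have a2 := ht2 (dbl z)
    have a3 := hn (dbl z)
    simp only [tr, tr2, nm] at a1 a2 a3
    have a4 : g (hf (dbl z)) ^ 3 = 0 := by
      linear_combination g (hf (dbl z)) ^ 2 * a1 - g (hf (dbl z)) * a2 + a3
    exact pow_eq_zero_iff (three_ne_zero) |>.1 a4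
  rwa [hf_dbl] at hw

end Pool.Agent.Helper5.MD
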