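import Pool.Agent.Helper5.MD.MF.A0Ident
import Pool.Agent.Helper5.MD.MF.A2Infty

/-!
# MD-A5 : the functions `EE`, `FF`
-/

open UpperHalfPlane hiding I
open ModularForm MatrixGroups Filter Topology
open scoped Manifold Real Nat

namespace Pool.Agent.Helper5.MD

/-- the product of the eta function -/
noncomputable def a5P (z : ℂ) : ℂ := ∏' n : ℕ, (1 - Function.Periodic.qParam 1 z ^ (n + 1))

theorem a5_eta (z : ℂ) : ModularForm.eta z = Function.Periodic.qParam 24 z * a5P z := rfl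

theorem a5P_ne_zero (z : ℍ) : a5P z ≠ 0 := ModularForm.eta_tprod_ne_zero z.2

theorem a5_eta_ne_zero (z : ℍ) : ModularForm.eta (z : ℂ) ≠ 0 := ModularForm.eta_ne_zero z.2

theorem a5_qParam_add (z : ℂ) : Function.Periodic.qParam 1 (z + 1) = Function.Periodic.qParam 1 z := by
  simp only [Function.Periodic.qParam]
  rw [show 2 * (π : ℂ) * Complex.I * (z + 1) / ((1 : ℝ) : ℂ) =
    2 * (π : ℂ) * Complex.I * z / ((1 : ℝ) : ℂ) + 2 * (π : ℂ) * Complex.I by push_cast; ring]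
  exact Complex.exp_periodic _

theorem a5P_add (z : ℂ) : a5P (z + 1) = a5P z := by
  unfold a5P
  rw [a5_qParam_add]

theorem a5P_add_two (z : ℂ) : a5P (z + 2) = a5P z := by
  rw [show z + 2 = (z + 1) + 1 by ring, a5P_add, a5P_add]

theorem a5_q24 (z : ℂ) : Function.Periodic.qParam 24 z ^ 24 = Function.Periodic.qParam 1 z := by
  simp only [Function.Periodic.qParam, ← Complex.exp_nat_mul]
  congr 1
  push_cast
  ring

theorem a5_q16 (z : ℂ) : Function.Periodic.qParam 24 z ^ 16 = Function.Periodic.qParam 24 (2 * z) ^ 8 := by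
  simp only [Function.Periodic.qParam, ← Complex.exp_nat_mul]
  congr 1
  push_cast
  ring

theorem a5_q2 (z : ℂ) : Function.Periodic.qParam 1 (2 * z) = Function.Periodic.qParam 1 z ^ 2 := by
  simp only [Function.Periodic.qParam, ← Complex.exp_nat_mul]
  congr 1
  push_cast
  ring

theorem a5_EE (z : ℍ) : EE z = a5P z ^ 16 / a5P (dbl z) ^ 8 := by
  unfold EE
  rw [a5_eta, a5_eta, coe_dbl, mul_pow, mul_pow, a5_q16]
  have h1 : Function.Periodic.qParam 24 (2 * (z : ℂ)) ≠ 0 := Function.Periodic.qParam_ne_zero _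
  have h2 : a5P (2 * (z : ℂ)) ≠ 0 := a5P_ne_zero (dbl z)
  field_simp

theorem a5_FF (z : ℍ) : FF z = Function.Periodic.qParam 1 z * (a5P (dbl z) ^ 24 / a5P z ^ 24) := by
  unfold FF
  rw [a5_eta, a5_eta, coe_dbl, mul_pow, mul_pow, a5_q24, a5_q24, a5_q2]
  have h1 : Function.Periodic.qParam 1 (z : ℂ) ≠ 0 := Function.Periodic.qParam_ne_zero _
  have h2 : a5P (z : ℂ) ≠ 0 := a5P_ne_zero z
  field_simp

theorem a5_disc (z : ℍ) : ModularForm.discriminant z = Function.Periodic.qParam 1 z * a5P z ^ 24 := by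
  unfold ModularForm.discriminant
  rw [a5_eta, mul_pow, a5_q24]

theorem a5P_tendsto : Tendsto (fun z : ℍ => a5P z) atImInfty (𝓝 1) := by
  have htprod : Tendsto (fun q : ℂ ↦ ∏' (n : ℕ), (1 - q ^ (n + 1))) (𝓝 0) (𝓝 1) := by
    have := tendsto_tprod_one_add_of_dominated_convergence (𝓕 := 𝓝 0) (g := 0)
      (f := fun (q : ℂ) (n : ℕ) ↦ -q ^ (n + 1)) (bound := fun n ↦ (1 / 2 : ℝ) ^ (n + 1))
    simp only [Pi.zero_apply, norm_neg, norm_pow, add_zero, tprod_one] at this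
    simp_rw [sub_eq_add_neg]
    refine this
      (by simpa only [pow_succ'] using (summable_geometric_of_abs_lt_one (by norm_num)).mul_left _)
      (fun k ↦ by simpa using ((continuous_pow (M := ℂ) (k + 1)).tendsto 0).neg) ?_
    filter_upwards [Metric.ball_mem_nhds (0 : ℂ) (by norm_num : (0 : ℝ) < 1 / 2)] with q hq k
    exact pow_le_pow_left₀ (norm_nonneg _) (mem_ball_zero_iff.mp hq).le _
  exact htprod.comp (UpperHalfPlane.qParam_tendsto_atImInfty zero_lt_one)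

theorem a5P_dbl_tendsto : Tendsto (fun z : ℍ => a5P (dbl z)) atImInfty (𝓝 1) :=
  a5P_tendsto.comp tendsto_dbl

theorem EE_ne_zero (z : ℍ) : EE z ≠ 0 :=
  div_ne_zero (pow_ne_zero _ (a5_eta_ne_zero z)) (pow_ne_zero _ (a5_eta_ne_zero (dbl z)))

theorem FF_ne_zero (z : ℍ) : FF z ≠ 0 :=
  div_ne_zero (pow_ne_zero _ (a5_eta_ne_zero (dbl z))) (pow_ne_zero _ (a5_eta_ne_zero z))

theorem a5_eta_mdiff : MDiff (fun z : ℍ => ModularForm.eta z) := by
  rw [UpperHalfPlane.mdifferentiable_iff]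
  refine DifferentiableOn.congr (f := ModularForm.eta) (fun z hz ↦
    (ModularForm.differentiableAt_eta_of_mem_upperHalfPlaneSet hz).differentiableWithinAt)
    fun z hz ↦ ?_
  simp [ofComplex_apply_of_im_pos hz]

theorem a5_eta_mdiff' : MDiff (fun z : ℍ => ModularForm.eta (dbl z)) :=
  mdiff_dbl (g := fun z : ℍ => ModularForm.eta z) a5_eta_mdiff

theorem a5_div {f g : ℍ → ℂ} (hf : MDiff f) (hg : MDiff g) (h0 : ∀ z, g z ≠ 0) :
    MDiff (fun z => f z / g z) := by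
  rw [UpperHalfPlane.mdifferentiable_iff] at hf hg ⊢
  exact hf.div hg (fun z _ => h0 _)

theorem EE_mdiff : MDiff EE :=
  a5_div (mdiff_pow a5_eta_mdiff 16) (mdiff_pow a5_eta_mdiff' 8)
    (fun z => pow_ne_zero _ (a5_eta_ne_zero (dbl z)))

theorem FF_mdiff : MDiff FF :=
  a5_div (mdiff_pow a5_eta_mdiff' 24) (mdiff_pow a5_eta_mdiff 24)
    (fun z => pow_ne_zero _ (a5_eta_ne_zero z))

theorem EE_sh (z : ℍ) : EE (sh z) = EE z := by
  rw [a5_EE, a5_EE]
  simp only [coe_dbl, coe_sh]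
  rw [mul_add, mul_one, a5P_add, a5P_add_two]

theorem FF_sh (z : ℍ) : FF (sh z) = FF z := by
  rw [a5_FF, a5_FF]
  simp only [coe_dbl, coe_sh]
  rw [mul_add, mul_one, a5P_add, a5P_add_two, a5_qParam_add]

theorem a5_sqrt_sq (z : ℂ) : Complex.sqrt z ^ 2 = z := by
  unfold Complex.sqrt
  exact Complex.cpow_nat_inv_pow z two_ne_zero

theorem a5_sqrt_eight (z : ℂ) : Complex.sqrt z ^ 8 = z ^ 4 := by
  rw [show Complex.sqrt z ^ 8 = (Complex.sqrt z ^ 2) ^ 4 by ring, a5_sqrt_sq]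

theorem a5_eta_inv (z : ℍ) : ModularForm.eta (-1 / (z : ℂ)) ^ 8 =
    (z : ℂ) ^ 4 * ModularForm.eta z ^ 8 := by
  have h := ModularForm.eta_comp_eq_csqrt_I_inv z.2
  have h' : ModularForm.eta (-1 / (z : ℂ)) =
      (Complex.sqrt Complex.I)⁻¹ * (Complex.sqrt z * ModularForm.eta z) := by
    simpa using h
  rw [h', mul_pow, mul_pow, inv_pow, a5_sqrt_eight, a5_sqrt_eight, Complex.I_pow_four]
  ring

theorem a5_eta_fr (z : ℍ) : ModularForm.eta (fr z) ^ 8 =
    16 * (z : ℂ) ^ 4 * ModularForm.eta (dbl z) ^ 8 := by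
  have h := a5_eta_inv (dbl z)
  rw [coe_fr, ← coe_dbl, h, coe_dbl]
  ring

theorem a5_eta_dbl_fr (z : ℍ) : ModularForm.eta (dbl (fr z)) ^ 8 =
    (z : ℂ) ^ 4 * ModularForm.eta z ^ 8 := by
  have h := a5_eta_inv z
  have h0 := z.ne_zero
  rw [← h, coe_dbl, coe_fr]
  congr 2
  field_simp

theorem EE_fr (z : ℍ) : EE (fr z) = 256 * (z : ℂ) ^ 4 * (EE z * FF z) := by
  unfold EE FF
  rw [show ModularForm.eta (fr z) ^ 16 = (ModularForm.eta (fr z) ^ 8) ^ 2 by ring,
    a5_eta_fr, a5_eta_dbl_fr]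
  have h0 := z.ne_zero
  have h1 := a5_eta_ne_zero z
  have h2 := a5_eta_ne_zero (dbl z)
  field_simp
  ring

theorem FF_fr (z : ℍ) : FF (fr z) = (4096 * FF z)⁻¹ := by
  unfold FF
  rw [show ModularForm.eta (fr z) ^ 24 = (ModularForm.eta (fr z) ^ 8) ^ 3 by ring,
    show ModularForm.eta (dbl (fr z)) ^ 24 = (ModularForm.eta (dbl (fr z)) ^ 8) ^ 3 by ring,
    a5_eta_fr, a5_eta_dbl_fr]
  have h0 := z.ne_zero
  have h1 := a5_eta_ne_zero z
  have h2 := a5_eta_ne_zero (dbl z)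
  field_simp
  ring

theorem EE_tendsto : Tendsto EE atImInfty (𝓝 1) := by
  have h : Tendsto (fun z : ℍ => a5P z ^ 16 / a5P (dbl z) ^ 8) atImInfty (𝓝 (1 ^ 16 / 1 ^ 8)) :=
    (a5P_tendsto.pow 16).div (a5P_dbl_tendsto.pow 8) (by norm_num)
  rw [one_pow, one_pow, div_one] at h
  exact h.congr fun z => (a5_EE z).symm

theorem FF_tendsto : Tendsto FF atImInfty (𝓝 0) := by
  have h : Tendsto (fun z : ℍ => Function.Periodic.qParam 1 z * (a5P (dbl z) ^ 24 / a5P z ^ 24)) atImInfty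
      (𝓝 (0 * (1 ^ 24 / 1 ^ 24))) :=
    (UpperHalfPlane.qParam_tendsto_atImInfty zero_lt_one).mul
      ((a5P_dbl_tendsto.pow 24).div (a5P_tendsto.pow 24) (by norm_num))
  rw [zero_mul] at h
  exact h.congr fun z => (a5_FF z).symm

/-- `Δ = E^3 F` -/
theorem EE_FF_discriminant (z : ℍ) : EE z ^ 3 * FF z = ModularForm.discriminant z := by
  unfold EE FF ModularForm.discriminant
  have h1 := a5_eta_ne_zero z
  have h2 := a5_eta_ne_zero (dbl z)
  field_simp

/-- `F / Δ → 1` -/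
theorem FF_div_tendsto : Tendsto (fun z : ℍ => FF z / ModularForm.discriminant z) atImInfty (𝓝 1) := by
  have h : Tendsto (fun z : ℍ => a5P (dbl z) ^ 24 / a5P z ^ 48) atImInfty (𝓝 (1 ^ 24 / 1 ^ 48)) :=
    (a5P_dbl_tendsto.pow 24).div (a5P_tendsto.pow 48) (by norm_num)
  rw [one_pow, one_pow, div_one] at h
  refine h.congr fun z => ?_
  rw [a5_FF, a5_disc]
  have h1 : Function.Periodic.qParam 1 (z : ℂ) ≠ 0 := Function.Periodic.qParam_ne_zero _
  have h2 := a5P_ne_zero z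
  field_simp

end Pool.Agent.Helper5.MD
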