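import Pool.Agent.Helper5.MD.MF.A4Trace
import Pool.Agent.Helper5.MD.MF.A5Eta

/-!
# MD-A6 : the quadratic relation

`(EE, 64 EE FF)` is a pair of weight `4` (`m = 2`) (`isPair_EE`).
* The trace `256 EE FF + EE(z/2) + EE((z+1)/2)` is in `M_4`, which has dimension one (`levelOne_weight_four_rank_one`) and
  contains `E₄` (constant term 1), so it equals `2 E₄` (value at `i∞`).
* `E4_eq`, `E4_dbl`: `(E₄, 4 E₄(2z))` is a pair (`isPair_of_modularForm`), `(EE + 256 EE FF, 64 EE FF + 4 EE)` is a pair; the difference tends to zero on both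
  sides: `pair_four_eq_zero` (also for the symmetric pair).
* `EE_sum` follows.  `EE_prod`: the norm `256 EE FF * EE(z/2) EE((z+1)/2)` is in `S_12 = ℂ Δ`, quotient by `Δ` tends to `256`, so it is
  `256 Δ = 256 EE^3 FF`.  (Or directly: `η(z/2) η((z+1)/2) η(2z) = exp(π i / 24) η(z)^3`.)
* `FF_hf`: `E₄(z) = EE(z/2) (1 + 16 FF(z/2))` by `E4_dbl` at `z/2`, `E₄ = EE (1 + 256 FF)`, and `EE(z/2)` is a root of
  `X^2 - (2 EE + 256 EE FF) X + EE^2`.  For `hf1` use also `E₄ (z+1) = E₄ z`, `dbl_hf1`.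
-/

open UpperHalfPlane hiding I
open ModularForm MatrixGroups Filter Topology
open scoped Manifold Real Nat

namespace Pool.Agent.Helper5.MD

theorem A6_E4_tendsto : Tendsto (fun z : ℍ => E₄ z) atImInfty (𝓝 1) := by
  have hh : (0 : ℝ) < 1 := one_pos
  have hanal := ModularFormClass.analyticAt_cuspFunction_zero E₄ hh one_mem_strictPeriods_SL
  have hper := SlashInvariantFormClass.periodic_comp_ofComplex E₄ one_mem_strictPeriods_SL
  have h0 : cuspFunction 1 E₄ 0 = 1 := by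
    rw [cuspFunction_apply_zero hh hanal hper, ← qExpansion_coeff_zero hh hanal hper]
    exact EisensteinSeries.E_qExpansion_coeff_zero (by norm_num) ⟨2, rfl⟩
  have h1 := (hanal.continuousAt.tendsto.comp (qParam_tendsto_atImInfty hh)).congr
    (fun τ ↦ SlashInvariantFormClass.eq_cuspFunction E₄ τ one_mem_strictPeriods_SL hh.ne')
  rw [h0] at h1
  exact h1

theorem A6_EF_mdiff (c : ℂ) : MDiff (fun z : ℍ => c * (EE z * FF z)) :=
  mdifferentiable_const.mul (EE_mdiff.mul FF_mdiff)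

theorem isPair_EE : IsPair 2 EE (fun z => 64 * (EE z * FF z)) where
  holo := EE_mdiff
  holo' := A6_EF_mdiff 64
  per := EE_sh
  per' z := by simp only [EE_sh, FF_sh]
  fricke z := by
    rw [EE_fr]
    have : (2 * 2 : ℤ) = ((4 : ℕ) : ℤ) := by norm_num
    rw [this, zpow_natCast]
    norm_num
    ring

theorem A6_EF_tendsto (c : ℂ) : Tendsto (fun z : ℍ => c * (EE z * FF z)) atImInfty (𝓝 0) := by
  have := (EE_tendsto.mul FF_tendsto).const_mul c
  simpa using this

/-- the difference of the two pairs -/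
theorem A6_pair : IsPair 2 (fun z : ℍ => E₄ z + (-1) * (EE z + 4 * (64 * (EE z * FF z))))
    (fun z : ℍ => 2 ^ (2 : ℤ) * E₄ (dbl z) + (-1) * (64 * (EE z * FF z) + 4 * EE z)) :=
  (isPair_of_modularForm (m := 2) E₄).add ((isPair_EE.add (isPair_EE.symm.smul 4)).smul (-1))

theorem A6_zero1 : IsZeroAtImInfty
    (fun z : ℍ => E₄ z + (-1) * (EE z + 4 * (64 * (EE z * FF z)))) := by
  have h := A6_E4_tendsto.add ((EE_tendsto.add ((A6_EF_tendsto 64).const_mul 4)).const_mul (-1))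
  have h2 : (1 : ℂ) + -1 * (1 + 4 * 0) = 0 := by norm_num
  rw [h2] at h
  exact h

theorem A6_zero2 : IsZeroAtImInfty
    (fun z : ℍ => 2 ^ (2 : ℤ) * E₄ (dbl z) + (-1) * (64 * (EE z * FF z) + 4 * EE z)) := by
  have h := ((A6_E4_tendsto.comp tendsto_dbl).const_mul (2 ^ (2 : ℤ))).add
    (((A6_EF_tendsto 64).add (EE_tendsto.const_mul 4)).const_mul (-1))
  have h2 : (2 : ℂ) ^ (2 : ℤ) * 1 + -1 * (0 + 4 * 1) = 0 := by norm_num
  rw [h2] at h
  exact h

theorem E4_eq (z : ℍ) : E₄ z = EE z + 256 * (EE z * FF z) := by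
  have h := pair_four_eq_zero A6_pair A6_zero1 A6_zero2 z
  linear_combination h

theorem E4_dbl (z : ℍ) : E₄ (dbl z) = EE z + 16 * (EE z * FF z) := by
  have h := pair_four_eq_zero A6_pair.symm A6_zero2 A6_zero1 z
  have h4 : (2 : ℂ) ^ (2 : ℤ) = 4 := by norm_num
  rw [h4] at h
  linear_combination (1 / 4 : ℂ) * h

theorem A6_bounded_EE : IsBoundedAtImInfty EE := EE_tendsto.isBigO_one ℝ

theorem EE_sum (z : ℍ) : EE (hf z) + EE (hf1 z) = 2 * EE z + 256 * (EE z * FF z) := by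
  obtain ⟨F, hF⟩ := exists_trace_modularForm isPair_EE A6_bounded_EE
    ((A6_EF_tendsto 64).isBigO_one ℝ)
  have hT : Tendsto (fun z : ℍ => F z) atImInfty (𝓝 2) := by
    have h1 : Tendsto (fun z : ℍ => tr 2 EE (fun z => 64 * (EE z * FF z)) z) atImInfty
        (𝓝 (2 ^ (2 : ℤ) * 0 + 1 + 1)) :=
      (((A6_EF_tendsto 64).const_mul _).add (EE_tendsto.comp tendsto_hf)).add
        (EE_tendsto.comp tendsto_hf1)
    have h2 : (2 : ℂ) ^ (2 : ℤ) * 0 + 1 + 1 = 2 := by norm_num
    rw [h2] at h1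
    exact h1.congr fun z => (hF z).symm
  obtain ⟨c, hc⟩ := (finrank_eq_one_iff_of_nonzero' E₄
      (EisensteinSeries.E_ne_zero _ ⟨2, rfl⟩)).mp
      (Module.rank_eq_one_iff_finrank_eq_one.mp levelOne_weight_four_rank_one) F
  have hc' : ∀ z : ℍ, F z = c * E₄ z := by
    intro z
    rw [← hc]
    rfl
  have hc2 : c = 2 := by
    have h3 : Tendsto (fun z : ℍ => F z) atImInfty (𝓝 (c * 1)) :=
      (A6_E4_tendsto.const_mul c).congr fun z => (hc' z).symm
    have := tendsto_nhds_unique h3 hT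
    simpa using this
  have h5 := hF z
  rw [hc' z, hc2, E4_eq] at h5
  unfold tr at h5
  have h4 : (2 : ℂ) ^ (2 : ℤ) = 4 := by norm_num
  rw [h4] at h5
  linear_combination -h5

theorem EE_prod (z : ℍ) : EE (hf z) * EE (hf1 z) = EE z ^ 2 := by
  obtain ⟨F, hF⟩ := exists_norm_cuspForm isPair_EE A6_bounded_EE (A6_EF_tendsto 64)
  obtain ⟨c, hc⟩ := CuspForm.exists_smul_discriminant_of_weight_eq_twelve F
  have hc' : ∀ z : ℍ, F z = c * discriminant z := by
    intro z
    rw [← hc]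
    rfl
  have hne : ∀ z : ℍ, discriminant z ≠ 0 := fun z => discriminant_ne_zero z
  have h4 : (2 : ℂ) ^ (2 : ℤ) = 4 := by norm_num
  have hnm : ∀ z : ℍ, F z = 256 * (EE z * FF z) * (EE (hf z) * EE (hf1 z)) := by
    intro z
    rw [hF z]
    unfold nm
    rw [h4]
    ring
  have hcc : c = 256 := by
    have h1 : Tendsto (fun z : ℍ => 256 * (EE z * (FF z / discriminant z)) *
        (EE (hf z) * EE (hf1 z))) atImInfty (𝓝 (256 * (1 * 1) * (1 * 1))) :=
      ((EE_tendsto.mul FF_div_tendsto).const_mul 256).mul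
        ((EE_tendsto.comp tendsto_hf).mul (EE_tendsto.comp tendsto_hf1))
    have h2 : ∀ z : ℍ, 256 * (EE z * (FF z / discriminant z)) *
        (EE (hf z) * EE (hf1 z)) = c := by
      intro z
      have h3 := hne z
      have h5 : 256 * (EE z * FF z) * (EE (hf z) * EE (hf1 z)) = c * discriminant z := by
        rw [← hnm z, hc' z]
      field_simp
      linear_combination h5
    have h3 := h1.congr h2
    have h6 := tendsto_nhds_unique h3 tendsto_const_nhds
    rw [← h6]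
    norm_num
  have h1 : 256 * (EE z * FF z) * (EE (hf z) * EE (hf1 z)) = 256 * (EE z ^ 3 * FF z) := by
    rw [← hnm z, hc' z, hcc, EE_FF_discriminant]
  have h2 : 256 * (EE z * FF z) ≠ 0 :=
    mul_ne_zero (by norm_num) (mul_ne_zero (EE_ne_zero z) (FF_ne_zero z))
  apply mul_left_cancel₀ h2
  rw [h1]
  ring

theorem FF_hf (z : ℍ) : 16 * FF (hf z) * EE (hf z) ^ 2 = EE z ^ 2 - EE z * EE (hf z) := by
  have h1 := E4_dbl (hf z)
  rw [dbl_hf, E4_eq] at h1
  have h2 := EE_sum z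
  have h3 := EE_prod z
  linear_combination (-EE (hf z)) * h1 - EE (hf z) * h2 + h3

theorem FF_hf1 (z : ℍ) : 16 * FF (hf1 z) * EE (hf1 z) ^ 2 = EE z ^ 2 - EE z * EE (hf1 z) := by
  have h1 := E4_dbl (hf1 z)
  rw [dbl_hf1, modularForm_sh, E4_eq] at h1
  have h2 := EE_sum z
  have h3 := EE_prod z
  linear_combination (-EE (hf1 z)) * h1 - EE (hf1 z) * h2 + h3

end Pool.Agent.Helper5.MD
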