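import Pool.Agent.Helper5.MD.MF.A6Quad

/-!
# MD-A7 : the weight two form `HH`

`E2(-1/z) = z^2 E2(z) + (6 / (π i)) z` (`EisensteinSeries.E2_slash_action`, `D2_S`, `riemannZeta_two`) gives `HH(fr z) = - 2 z^2 HH(z)`:
`2 E2(-1/z) - E2(-1/(2z)) = 2 z^2 E2(z) + c 2 z - 4 z^2 E2(2z) - c 2 z`.  Holomorphic: `E2_mdifferentiable`; limit `1`: `E2 → 1` (Mathlib: `hasSum_qExpansion_E2`
or `E2_eq_tsum_cexp`; `isBoundedAtImInfty_E2`).
* `HH_sq`: `(HH^2, HH^2)` and `(EE + 64 EE FF, 64 EE FF + EE)` are pairs with `m = 2`, difference tends to zero: `pair_four_eq_zero`.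
* `HH_hf`: the squares of both sides agree: with `E = EE z`, `E1 = EE (hf z)`: `HH(hf z)^2 = E1 + 64 E1 FF(hf z) = (2 E - E1)^2 / E1` (by `FF_hf`) and
  `HH z^2 = E + 64 E FF z = (E + E1)^2 / (4 E1)` (by `EE_sum`, `EE_prod`).  So `(A - B)(A + B) = 0`; `mul_eq_zero_of_mdiff`, and `A + B → 4` at `i∞`.
-/

open UpperHalfPlane hiding I
open ModularForm MatrixGroups Filter Topology
open scoped Manifold Real Nat

namespace Pool.Agent.Helper5.MD

open Complex in
private theorem E2_sv (z : ℍ) : EisensteinSeries.E2 (sv z) =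
    (z : ℂ) ^ 2 * EisensteinSeries.E2 z - (2 * π * I) / (2 * riemannZeta 2) * z := by
  have h := EisensteinSeries.G2_S_transform z
  have hs : ModularGroup.S • z = sv z := by
    rw [UpperHalfPlane.modular_S_smul]
    apply UpperHalfPlane.ext
    rw [coe_sv]
    simp [neg_div]
  rw [hs] at h
  have hz := z.ne_zero
  unfold EisensteinSeries.E2
  simp only [Pi.smul_apply, smul_eq_mul]
  have h2 : EisensteinSeries.G2 (sv z) =
      (z : ℂ) ^ 2 * EisensteinSeries.G2 z - 2 * π * I * z := by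
    rw [h]
    field_simp
    ring
  rw [h2]
  ring

private theorem E2_sh (z : ℍ) : EisensteinSeries.E2 (sh z) = EisensteinSeries.E2 z := by
  rw [EisensteinSeries.E2_eq_tsum_cexp, EisensteinSeries.E2_eq_tsum_cexp]
  have h : Complex.exp (2 * π * Complex.I * ((sh z : ℍ) : ℂ)) =
      Complex.exp (2 * π * Complex.I * (z : ℂ)) := by
    rw [coe_sh, mul_add, mul_one, Complex.exp_add, Complex.exp_two_pi_mul_I, mul_one]
  rw [h]

private theorem E2_tendsto : Tendsto EisensteinSeries.E2 atImInfty (𝓝 1) := by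
  have hper : Function.Periodic (EisensteinSeries.E2 ∘ ofComplex) ((1 : ℝ) : ℂ) := by
    intro w
    by_cases hw : 0 < w.im
    · have hw' : 0 < (w + ((1 : ℝ) : ℂ)).im := by simpa using hw
      simp only [Function.comp_apply, ofComplex_apply_of_im_pos hw, ofComplex_apply_of_im_pos hw']
      rw [← E2_sh ⟨w, hw⟩]
      congr 1
    · have hw1 : w.im ≤ 0 := not_lt.1 hw
      have hw' : (w + ((1 : ℝ) : ℂ)).im ≤ 0 := by simpa using hw1
      simp only [Function.comp_apply]
      rw [ofComplex_apply_of_im_nonpos hw1, ofComplex_apply_of_im_nonpos hw']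
  have han := analyticAt_cuspFunction_zero one_pos hper E2_mdifferentiable
    EisensteinSeries.isBoundedAtImInfty_E2
  have hps := hasFPowerSeriesOnBall_cuspFunction one_pos han (fun τ => by
    simpa only [Function.Periodic.qParam, Complex.ofReal_one, div_one] using
      EisensteinSeries.hasSum_qExpansion_E2 (z := τ))
  have hval : cuspFunction 1 EisensteinSeries.E2 0 = 1 := by
    have h := hps.hasFPowerSeriesAt.coeff_zero (fun _ => 0)
    rw [← h]
    simp [FormalMultilinearSeries.ofScalars]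
  have hfun : (cuspFunction 1 EisensteinSeries.E2 ∘ fun τ : ℍ =>
      Function.Periodic.qParam 1 (τ : ℂ)) = EisensteinSeries.E2 := by
    funext τ
    simpa using eq_cuspFunction τ one_ne_zero hper
  have ht := han.continuousAt.tendsto.comp (qParam_tendsto_atImInfty one_pos)
  rwa [hfun, hval] at ht

theorem HH_mdiff : MDiff HH :=
  (MDifferentiable.const_smul (2 : ℂ) (mdiff_dbl E2_mdifferentiable)).sub E2_mdifferentiable

theorem HH_sh (z : ℍ) : HH (sh z) = HH z := by
  have h : dbl (sh z) = sh (sh (dbl z)) := by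
    apply UpperHalfPlane.ext; simp; ring
  unfold HH
  rw [h, E2_sh, E2_sh, E2_sh]

theorem HH_fr (z : ℍ) : HH (fr z) = -2 * (z : ℂ) ^ 2 * HH z := by
  have hz := z.ne_zero
  have h1 : dbl (fr z) = sv z := by
    apply UpperHalfPlane.ext; simp; field_simp
  have h2 : fr z = sv (dbl z) := by
    apply UpperHalfPlane.ext; simp
  unfold HH
  rw [h1, h2, E2_sv, E2_sv, coe_dbl]
  ring

theorem HH_tendsto : Tendsto HH atImInfty (𝓝 1) := by
  have h := ((E2_tendsto.comp tendsto_dbl).const_mul 2).sub E2_tendsto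
  have h1 : (2 : ℂ) * 1 - 1 = 1 := by norm_num
  rw [h1] at h
  exact h

private theorem isPair_HH_sq : IsPair 2 (fun z => HH z ^ 2) (fun z => HH z ^ 2) where
  holo := mdiff_pow HH_mdiff 2
  holo' := mdiff_pow HH_mdiff 2
  per := fun z => by rw [HH_sh]
  per' := fun z => by rw [HH_sh]
  fricke := fun z => by
    rw [HH_fr]
    have h1 : (2 : ℂ) ^ (2 : ℤ) = 4 := by norm_num
    have h2 : (z : ℂ) ^ (2 * 2 : ℤ) = (z : ℂ) ^ 4 := by norm_cast
    rw [h1, h2]
    ring

theorem HH_sq (z : ℍ) : HH z ^ 2 = EE z + 64 * (EE z * FF z) := by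
  have hp := isPair_HH_sq.add ((isPair_EE.add isPair_EE.symm).smul (-1))
  have hz1 : Tendsto (fun z => HH z ^ 2 + -1 * (EE z + 64 * (EE z * FF z))) atImInfty (𝓝 0) := by
    have h := (HH_tendsto.pow 2).add ((EE_tendsto.add
      ((EE_tendsto.mul FF_tendsto).const_mul 64)).const_mul (-1))
    have h1 : (1 : ℂ) ^ 2 + -1 * (1 + 64 * (1 * 0)) = 0 := by norm_num
    rwa [h1] at h
  have hz2 : Tendsto (fun z => HH z ^ 2 + -1 * (64 * (EE z * FF z) + EE z)) atImInfty (𝓝 0) := by
    refine hz1.congr fun z => ?_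
    ring
  have h := pair_four_eq_zero hp hz1 hz2 z
  linear_combination h

private theorem HH_hf_sq (z : ℍ) :
    (HH (hf z) * (EE z + EE (hf z))) ^ 2 = (2 * HH z * (2 * EE z - EE (hf z))) ^ 2 := by
  have h1 := HH_sq z
  have h2 := HH_sq (hf z)
  have h3 := FF_hf z
  have h4 := EE_sum z
  have h5 := EE_prod z
  have h6 : EE (hf z) ≠ 0 := EE_ne_zero _
  have h7 : EE (hf z) * HH (hf z) ^ 2 = (2 * EE z - EE (hf z)) ^ 2 := by
    linear_combination EE (hf z) * h2 + 4 * h3
  have h8 : 4 * EE (hf z) * HH z ^ 2 = (EE z + EE (hf z)) ^ 2 := by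
    linear_combination 4 * EE (hf z) * h1 - EE (hf z) * h4 + h5
  apply mul_left_cancel₀ h6
  linear_combination (EE z + EE (hf z)) ^ 2 * h7 - (2 * EE z - EE (hf z)) ^ 2 * h8

theorem HH_hf (z : ℍ) :
    HH (hf z) * (EE z + EE (hf z)) = 2 * HH z * (2 * EE z - EE (hf z)) := by
  have hA : MDiff (fun z : ℍ => HH (hf z) * (EE z + EE (hf z))) :=
    (mdiff_hf HH_mdiff).mul (EE_mdiff.add (mdiff_hf EE_mdiff))
  have hB : MDiff (fun z : ℍ => 2 * HH z * (2 * EE z - EE (hf z))) :=
    (MDifferentiable.const_smul (2 : ℂ) HH_mdiff).mul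
      ((MDifferentiable.const_smul (2 : ℂ) EE_mdiff).sub (mdiff_hf EE_mdiff))
  have h := mul_eq_zero_of_mdiff (hA.sub hB) (hA.add hB) (fun z => by
    have := HH_hf_sq z
    simp only [Pi.sub_apply, Pi.add_apply]
    linear_combination this)
  rcases h with h | h
  · have := h z
    simp only [Pi.sub_apply] at this
    exact sub_eq_zero.1 this
  · exfalso
    have hE : Tendsto (fun z => EE (hf z)) atImInfty (𝓝 1) := EE_tendsto.comp tendsto_hf
    have hH : Tendsto (fun z => HH (hf z)) atImInfty (𝓝 1) := HH_tendsto.comp tendsto_hf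
    have ht := (hH.mul (EE_tendsto.add hE)).add
      ((HH_tendsto.const_mul 2).mul ((EE_tendsto.const_mul 2).sub hE))
    have h0 : (fun z => HH (hf z) * (EE z + EE (hf z)) + 2 * HH z * (2 * EE z - EE (hf z))) =
        fun _ => (0 : ℂ) := by
      funext z
      have := h z
      simpa only [Pi.add_apply] using this
    rw [h0] at ht
    have h2 := tendsto_nhds_unique ht tendsto_const_nhds
    norm_num at h2

theorem HH_hf1 (z : ℍ) :
    HH (hf1 z) * (EE z + EE (hf1 z)) = 2 * HH z * (2 * EE z - EE (hf1 z)) := by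
  have h := HH_hf (sh z)
  rwa [hf_sh, EE_sh, HH_sh] at h

end Pool.Agent.Helper5.MD
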