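import Pool.Agent.Helper5.MD.Defs

/-!
# MD-A8 : Lucas and Fibonacci polynomials

For `y ≠ 0`, `u = y - 1/y`, `V_a = y^a + (-1)^a y^(-a)` satisfies `V_(a+2) = u V_(a+1) + V_a` and for `a ≥ 1`
`V_a = ∑_(N ≤ a, N ≡ a mod 2) (C((a+N)/2, N) + C((a+N)/2 - 1, N)) u^N` (with `V_0 = 2`), `V_(-a) = (-1)^a V_a`.
`W_m = (y^m - (-1)^m y^(-m)) / (y + 1/y)` satisfies the same recursion, `W_m = ∑_(N ≡ m - 1) C((m-1+N)/2, N) u^N` for `m ≥ 1`, `W_(-m) = (-1)^(m-1) W_m`.
`poly1`: with `a = 2 κ - 3 j`, `N = 2 i - j`: `C((a+N)/2, N) = C(κ + i - 2 j, 2 i - j) = (-1)^j C(i + j - κ - 1, 2 i - j)` and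
`C((a+N)/2 - 1, N) = (-1)^j C(i + j - κ, 2 i - j)`.
`poly2`: the left side is `2 (2 W_(c+1) - W_(c-1)) = 2 (W_(c+1) + u W_c)` with `c = 3 j - 2 κ`, and `N = 2 i - j` in `W_(c+1)`: `C(i + j - κ, 2 i - j)`;
`N = 2 i - j - 1` in `W_c`: `C(i + j - κ - 1, 2 i - j - 1)`.
The sum over `1 ≤ i ≤ κ - 1` contains all nonzero terms (for `1 ≤ j < κ`): terms with `2 i < j` vanish by definition of `b1, b2`.
-/

open UpperHalfPlane hiding I
open ModularForm MatrixGroups Filter Topology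
open scoped Manifold Real Nat

namespace Pool.Agent.Helper5.MD

namespace A8

theorem ch_zero (x : ℚ) : ch x 0 = 1 := by simp [ch]

theorem ch_succ (x : ℚ) (n : ℕ) : ch (x + 1) (n + 1) = ch x n + ch x (n + 1) := by
  have h0 : ((n ! : ℕ) : ℚ) ≠ 0 := by exact_mod_cast Nat.factorial_ne_zero n
  have h1 : ((n : ℚ) + 1) ≠ 0 := by positivity
  unfold ch
  rw [Finset.prod_range_succ', Finset.prod_range_succ (fun i : ℕ => x - (i : ℚ)), Nat.factorial_succ]
  have h2 : ∏ i ∈ Finset.range n, (x + 1 - ((i + 1 : ℕ) : ℚ)) =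
      ∏ i ∈ Finset.range n, (x - (i : ℚ)) := by
    refine Finset.prod_congr rfl fun i _ => ?_
    push_cast
    ring
  rw [h2]
  push_cast
  field_simp
  ring

theorem ch_nat_zero {a n : ℕ} (h : a < n) : ch (a : ℚ) n = 0 := by
  unfold ch
  rw [Finset.prod_eq_zero (Finset.mem_range.2 h) (sub_self _), zero_div]

/-- coefficients of the Fibonacci polynomials, for all integers `m` -/
noncomputable def dl (m : ℤ) (N : ℕ) : ℚ :=
  if (m - 1 + N) % 2 = 0 then ch (((m - 1 + N) / 2 : ℤ) : ℚ) N else 0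

theorem dl_zero {m : ℤ} {N : ℕ} (h : m.natAbs ≤ N) : dl m N = 0 := by
  unfold dl
  split_ifs with h0
  · obtain ⟨a, ha⟩ : ∃ a : ℕ, (m - 1 + N) / 2 = (a : ℤ) := ⟨((m - 1 + N) / 2).toNat, by omega⟩
    rw [ha]
    exact_mod_cast ch_nat_zero (by omega)
  · rfl

theorem dl_succ (m : ℤ) (N : ℕ) : dl (m + 1) (N + 1) = dl m N + dl (m - 1) (N + 1) := by
  unfold dl
  by_cases h : (m - 1 + N) % 2 = 0
  · rw [if_pos (by push_cast; omega), if_pos h, if_pos (by push_cast; omega)]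
    have e1 : (m + 1 - 1 + ((N + 1 : ℕ) : ℤ)) / 2 = (m - 1 + N) / 2 + 1 := by push_cast; omega
    have e2 : (m - 1 - 1 + ((N + 1 : ℕ) : ℤ)) / 2 = (m - 1 + N) / 2 := by push_cast; omega
    rw [e1, e2]
    push_cast
    exact ch_succ _ _
  · rw [if_neg (by push_cast; omega), if_neg h, if_neg (by push_cast; omega), add_zero]

theorem dl_at_zero (m : ℤ) : dl (m + 1) 0 = dl (m - 1) 0 := by
  unfold dl
  by_cases h : m % 2 = 0
  · rw [if_pos (by push_cast; omega), if_pos (by push_cast; omega), ch_zero, ch_zero]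
  · rw [if_neg (by push_cast; omega), if_neg (by push_cast; omega)]

/-- truncated sums -/
noncomputable def FM (u : ℂ) (M : ℕ) (m : ℤ) : ℂ :=
  ∑ N ∈ Finset.range M, ((dl m N : ℚ) : ℂ) * u ^ N

theorem FM_eq (u : ℂ) {M M' : ℕ} {m : ℤ} (h : m.natAbs ≤ M) (h' : m.natAbs ≤ M') :
    FM u M m = FM u M' m := by
  have key : ∀ K : ℕ, m.natAbs ≤ K → FM u K m = FM u m.natAbs m := by
    intro K hK
    unfold FM
    refine (Finset.sum_subset (Finset.range_mono hK) fun N _ hN => ?_).symm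
    rw [Finset.mem_range, not_lt] at hN
    rw [dl_zero hN]
    simp
  rw [key M h, key M' h']

theorem FM_succ (u : ℂ) (M : ℕ) (m : ℤ) :
    FM u (M + 1) (m + 1) = u * FM u M m + FM u (M + 1) (m - 1) := by
  unfold FM
  rw [Finset.sum_range_succ', Finset.sum_range_succ' _ M, Finset.mul_sum]
  rw [← add_assoc, ← Finset.sum_add_distrib, dl_at_zero]
  congr 1
  refine Finset.sum_congr rfl fun N _ => ?_
  rw [dl_succ]
  push_cast
  ring

/-- the Fibonacci polynomials -/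
noncomputable def FF (u : ℂ) (m : ℤ) : ℂ := FM u m.natAbs m

theorem FF_eq (u : ℂ) {M : ℕ} {m : ℤ} (h : m.natAbs ≤ M) : FF u m = FM u M m :=
  FM_eq u le_rfl h

theorem FF_succ (u : ℂ) (m : ℤ) : FF u (m + 1) = u * FF u m + FF u (m - 1) := by
  rw [FF_eq u (M := m.natAbs + 1 + 1) (m := m + 1) (by omega),
    FF_eq u (M := m.natAbs + 1) (m := m) (by omega),
    FF_eq u (M := m.natAbs + 1 + 1) (m := m - 1) (by omega), FM_succ]

theorem FF_zero (u : ℂ) : FF u 0 = 0 := by simp [FF, FM]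

theorem FF_neg_one (u : ℂ) : FF u (-1) = 1 := by
  simp [FF, FM, dl, ch_zero]

/-- the powers of a root of `t ^ 2 = u t + 1` -/
theorem root_zpow {u y : ℂ} (hy : y ≠ 0) (h : y * y = u * y + 1) (m : ℤ) :
    y ^ m = FF u m * y + FF u (m - 1) := by
  have hinv : y⁻¹ = y - u := by
    field_simp
    linear_combination -h
  induction m using Int.induction_on with
  | zero => simp [FF_zero, FF_neg_one]
  | succ i ih =>
    rw [zpow_add₀ hy, zpow_one, ih, add_sub_cancel_right, FF_succ]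
    linear_combination (FF u i) * h
  | pred i ih =>
    have h1 := FF_succ u (-(i : ℤ) - 1)
    rw [sub_add_cancel] at h1
    rw [zpow_sub₀ hy, zpow_one, div_eq_mul_inv, ih, hinv, h1]
    linear_combination (u * FF u (-(i : ℤ) - 1) + FF u (-(i : ℤ) - 1 - 1)) * h

theorem neg_inv_zpow (y : ℂ) (c : ℤ) (j : ℕ) (h : (c - j) % 2 = 0) :
    (-y⁻¹) ^ c = (-1) ^ j * y ^ (-c) := by
  have h1 : (-y⁻¹) = (-1) * y⁻¹ := by ring
  rw [h1, mul_zpow, inv_zpow, ← zpow_neg]
  congr 1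
  obtain ⟨k, hk⟩ : ∃ k : ℤ, c = j + 2 * k := ⟨(c - j) / 2, by omega⟩
  rw [hk, zpow_add₀ (by norm_num), zpow_mul, zpow_natCast]
  norm_num

/-- change of the summation variable -/
theorem sum_reindex (κ j : ℕ) (hj : 1 ≤ j) (hjκ : j < κ) (g : ℕ → ℂ)
    (hg : ∀ N : ℕ, N % 2 ≠ j % 2 → g N = 0) :
    ∑ N ∈ Finset.range (2 * κ - 1 - j), g N =
      ∑ i ∈ Finset.Ico 1 κ, if j ≤ 2 * i then g (2 * i - j) else 0 := by
  rw [← Finset.sum_filter]
  have h1 : ∑ N ∈ Finset.range (2 * κ - 1 - j), g N =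
      ∑ N ∈ (Finset.range (2 * κ - 1 - j)).filter (fun N => N % 2 = j % 2), g N := by
    rw [Finset.sum_filter]
    refine Finset.sum_congr rfl fun N _ => ?_
    split_ifs with h
    · rfl
    · exact hg N h
  rw [h1]
  refine Finset.sum_nbij' (fun N => (N + j) / 2) (fun i => 2 * i - j) ?_ ?_ ?_ ?_ ?_
  · intro N hN
    simp only [Finset.mem_filter, Finset.mem_range, Finset.mem_Ico] at hN ⊢
    omega
  · intro i hi
    simp only [Finset.mem_filter, Finset.mem_range, Finset.mem_Ico] at hi ⊢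
    omega
  · intro N hN
    simp only [Finset.mem_filter, Finset.mem_range] at hN
    omega
  · intro i hi
    simp only [Finset.mem_filter, Finset.mem_Ico] at hi
    omega
  · intro N hN
    simp only [Finset.mem_filter, Finset.mem_range] at hN
    congr 1
    omega

theorem dl_par {m : ℤ} {N : ℕ} (h : (m - 1 + N) % 2 ≠ 0) : dl m N = 0 := by
  unfold dl
  rw [if_neg h]

end A8

open A8

/-- the polynomial identity behind the matrix `b1` -/
theorem poly1 (κ j : ℕ) (hj : 1 ≤ j) (hjκ : j < κ) (y : ℂ) (hy : y ≠ 0) :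
    y ^ (3 * (j : ℤ) - 2 * κ) + (-1) ^ j * y ^ (2 * (κ : ℤ) - 3 * j) =
      ∑ i ∈ Finset.Ico 1 κ, ((b1 (κ : ℚ) i j : ℚ) : ℂ) * (y - y⁻¹) ^ (2 * i - j) := by
  set u := y - y⁻¹ with hu
  set c : ℤ := 3 * (j : ℤ) - 2 * κ with hc
  have hr1 : y * y = u * y + 1 := by rw [hu]; field_simp; ring
  have hr2 : (-y⁻¹) * (-y⁻¹) = u * (-y⁻¹) + 1 := by rw [hu]; field_simp; ring
  have hy' : -y⁻¹ ≠ 0 := neg_ne_zero.2 (inv_ne_zero hy)
  have e1 : 2 * (κ : ℤ) - 3 * j = -c := by rw [hc]; ring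
  rw [e1, ← neg_inv_zpow y c j (by omega), root_zpow hy hr1, root_zpow hy' hr2]
  have e2 : FF u c * y + FF u (c - 1) + (FF u c * -y⁻¹ + FF u (c - 1)) =
      FF u (c + 1) + FF u (c - 1) := by
    rw [FF_succ, hu]; ring
  rw [e2, FF_eq u (M := 2 * κ - 1 - j) (m := c + 1) (by omega),
    FF_eq u (M := 2 * κ - 1 - j) (m := c - 1) (by omega)]
  unfold FM
  rw [← Finset.sum_add_distrib, sum_reindex κ j hj hjκ]
  · refine Finset.sum_congr rfl fun i hi => ?_
    rw [Finset.mem_Ico] at hi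
    unfold b1
    split_ifs with h
    · rw [← add_mul]
      congr 1
      unfold dl
      rw [if_pos (by push_cast [Nat.cast_sub h]; omega), if_pos (by push_cast [Nat.cast_sub h]; omega)]
      have e3 : (c + 1 - 1 + ((2 * i - j : ℕ) : ℤ)) / 2 = i + j - κ := by
        push_cast [Nat.cast_sub h]; omega
      have e4 : (c - 1 - 1 + ((2 * i - j : ℕ) : ℤ)) / 2 = i + j - κ - 1 := by
        push_cast [Nat.cast_sub h]; omega
      rw [e3, e4]
      push_cast
      ring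
    · simp
  · intro N hN
    rw [dl_par (by omega), dl_par (by omega)]
    simp

/-- the polynomial identity behind the matrix `b2` -/
theorem poly2 (κ j : ℕ) (hj : 1 ≤ j) (hjκ : j < κ) (y : ℂ) (hy : y ≠ 0) (hy2 : y + y⁻¹ ≠ 0) :
    2 * ((2 * y - y⁻¹) * y ^ (3 * (j : ℤ) - 2 * κ) +
        (-1) ^ j * (2 * y⁻¹ - y) * y ^ (2 * (κ : ℤ) - 3 * j)) / (y + y⁻¹) =
      ∑ i ∈ Finset.Ico 1 κ, ((b2 (κ : ℚ) i j : ℚ) : ℂ) * (y - y⁻¹) ^ (2 * i - j) := by
  set u := y - y⁻¹ with hu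
  set c : ℤ := 3 * (j : ℤ) - 2 * κ with hc
  have hr1 : y * y = u * y + 1 := by rw [hu]; field_simp; ring
  have hr2 : (-y⁻¹) * (-y⁻¹) = u * (-y⁻¹) + 1 := by rw [hu]; field_simp; ring
  have hy' : -y⁻¹ ≠ 0 := neg_ne_zero.2 (inv_ne_zero hy)
  have e1 : 2 * (κ : ℤ) - 3 * j = -c := by rw [hc]; ring
  have e0 : (-1) ^ j * (2 * y⁻¹ - y) * y ^ (-c) = (2 * y⁻¹ - y) * (-y⁻¹) ^ c := by
    rw [neg_inv_zpow y c j (by omega)]; ring
  rw [e1, e0, root_zpow hy hr1, root_zpow hy' hr2]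
  have e2 : 2 * ((2 * y - y⁻¹) * (FF u c * y + FF u (c - 1)) +
      (2 * y⁻¹ - y) * (FF u c * -y⁻¹ + FF u (c - 1))) / (y + y⁻¹) =
      2 * (FF u (c + 1) + u * FF u c) := by
    rw [FF_succ, div_eq_iff hy2, hu]
    field_simp
    ring
  rw [e2, FF_eq u (M := 2 * κ - 1 - j) (m := c + 1) (by omega),
    FF_eq u (M := 2 * κ - 2 - j) (m := c) (by omega)]
  have e5 : u * FM u (2 * κ - 2 - j) c = ∑ N ∈ Finset.range (2 * κ - 1 - j),
      (if N = 0 then 0 else ((dl c (N - 1) : ℚ) : ℂ) * u ^ N) := by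
    have e6 : 2 * κ - 1 - j = (2 * κ - 2 - j) + 1 := by omega
    rw [e6, Finset.sum_range_succ', if_pos rfl, add_zero]
    unfold FM
    rw [Finset.mul_sum]
    refine Finset.sum_congr rfl fun N _ => ?_
    rw [if_neg (by omega), Nat.add_sub_cancel]
    ring
  rw [e5]
  unfold FM
  rw [← Finset.sum_add_distrib, Finset.mul_sum, sum_reindex κ j hj hjκ]
  · refine Finset.sum_congr rfl fun i hi => ?_
    rw [Finset.mem_Ico] at hi
    unfold b2
    by_cases h : j < 2 * i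
    · rw [if_pos h.le, if_pos h, if_neg (by omega), ← add_mul]
      have h' := h.le
      have h1 : (dl (c + 1) (2 * i - j) : ℚ) = ch ((i : ℚ) + j - κ) (2 * i - j) := by
        unfold dl
        rw [if_pos (by push_cast [Nat.cast_sub h']; omega)]
        have e3 : (c + 1 - 1 + ((2 * i - j : ℕ) : ℤ)) / 2 = i + j - κ := by
          push_cast [Nat.cast_sub h']; omega
        rw [e3]
        push_cast
        ring_nf
      have h2 : (dl c (2 * i - j - 1) : ℚ) = ch ((i : ℚ) + j - κ - 1) (2 * i - j - 1) := by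
        unfold dl
        rw [if_pos (by omega)]
        have e3 : (c - 1 + ((2 * i - j - 1 : ℕ) : ℤ)) / 2 = i + j - κ - 1 := by
          omega
        rw [e3]
        push_cast
        ring_nf
      rw [h1, h2]
      push_cast
      ring
    · rw [if_neg h]
      by_cases h3 : j = 2 * i
      · rw [if_pos (by omega), if_pos h3]
        have h4 : 2 * i - j = 0 := by omega
        rw [h4, if_pos rfl]
        unfold dl
        rw [if_pos (by push_cast; omega), ch_zero]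
        simp
      · rw [if_neg (by omega), if_neg h3]
        simp
  · intro N hN
    rw [dl_par (by omega)]
    split_ifs with h0
    · simp
    · rw [dl_par (by omega)]
      simp

end Pool.Agent.Helper5.MD
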