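import Pool.Agent.Helper5.MD.MF.A7HH
import Pool.Agent.Helper5.MD.MF.A8Poly

/-!
# MD-A9 : the matrix of `U_2` in the basis `gg`

Fix `z` with (if `ε`) `EE z + EE (hf z) ≠ 0`.  Choose `y` with `y^2 = EE (hf1 z) / EE z`; then `y ≠ 0`, `EE (hf z) / EE z = y^(-2)` (`EE_prod`),
`(y - 1/y)^2 = 256 FF z` (`EE_sum`), `16 FF (hf z) = (1 - y^(-2)) y^4`, `16 FF (hf1 z) = (1 - y^2) y^(-4)` (`FF_hf`, `FF_hf1`) so
`EE(hf z)^κ FF(hf z)^j = EE^κ 16^(-j) y^(3 j - 2 κ) (y - 1/y)^j`, `EE(hf1 z)^κ FF(hf1 z)^j = EE^κ 16^(-j) (-1)^j y^(2 κ - 3 j) (y - 1/y)^j`;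
`poly1` and `(y - 1/y)^j (y - 1/y)^(2i-j) = (256 FF)^i` for `j ≤ 2 i` give the claim: `256^i 16^(-j) / 2 = 2^(8i-4j-1)`.
For `ε = true`: `HH(hf z) = HH z * 2 (2 - y^(-2)) / (1 + y^(-2))`, `HH(hf1 z) = HH z * 2 (2 - y^2)/(1 + y^2)`, `poly2`.
For `ε = true` the excluded set: if `EE z + EE (hf z) = 0` then `y^2 = -1`, `256 FF z = -4`, `HH z = 0` (`HH_sq`); so `HH z * (difference) = 0` for all `z`
and `mul_eq_zero_of_mdiff` with `HH` not identically zero.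
-/

open UpperHalfPlane hiding I
open ModularForm MatrixGroups Filter Topology
open scoped Manifold Real Nat

namespace Pool.Agent.Helper5.MD

/-- the square root -/
private theorem a9_root (z : ℍ) : ∃ y : ℂ, y ≠ 0 ∧ EE (hf1 z) = EE z * y ^ 2 ∧
    EE (hf z) * y ^ 2 = EE z ∧ (y - y⁻¹) ^ 2 = 256 * FF z ∧
    16 * FF (hf z) = y ^ 3 * (y - y⁻¹) ∧ 16 * FF (hf1 z) * y ^ 3 = -(y - y⁻¹) := by
  have h0 := EE_ne_zero z
  have h1 := EE_ne_zero (hf z)
  have h2 := EE_ne_zero (hf1 z)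
  obtain ⟨y, hy⟩ := IsAlgClosed.exists_pow_nat_eq (EE (hf1 z) / EE z) (n := 2) (by norm_num)
  have hy0 : y ≠ 0 := by
    intro h
    rw [h] at hy
    have : EE (hf1 z) / EE z ≠ 0 := div_ne_zero h2 h0
    apply this
    rw [← hy]
    norm_num
  have e2 : EE (hf1 z) = EE z * y ^ 2 := by
    rw [hy]
    field_simp
  have e1 : EE (hf z) * y ^ 2 = EE z := by
    have h3 := EE_prod z
    rw [e2] at h3
    have h4 : EE z * (EE (hf z) * y ^ 2) = EE z * EE z := by linear_combination h3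
    exact mul_left_cancel₀ h0 h4
  have hs : (y - y⁻¹) ^ 2 = 256 * FF z := by
    have h3 := EE_sum z
    have h4 : EE z * y ^ 2 * ((y - y⁻¹) ^ 2) = EE z * y ^ 2 * (256 * FF z) := by
      have h5 : y * y⁻¹ = 1 := mul_inv_cancel₀ hy0
      calc EE z * y ^ 2 * ((y - y⁻¹) ^ 2) = EE z * (y ^ 2 - y * y⁻¹) ^ 2 := by ring
        _ = EE z * (y ^ 2 - 1) ^ 2 := by rw [h5]
        _ = _ := by
          rw [e2] at h3
          linear_combination y ^ 2 * h3 - e1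
    exact mul_left_cancel₀ (mul_ne_zero h0 (pow_ne_zero _ hy0)) h4
  refine ⟨y, hy0, e2, e1, hs, ?_, ?_⟩
  · have h3 := FF_hf z
    have h5 : y * y⁻¹ = 1 := mul_inv_cancel₀ hy0
    apply mul_left_cancel₀ (pow_ne_zero 2 h1)
    calc EE (hf z) ^ 2 * (16 * FF (hf z)) = EE z ^ 2 - EE z * EE (hf z) := by
          rw [← h3]; ring
      _ = EE (hf z) ^ 2 * (y ^ 2 * (y ^ 2 - 1)) := by
          rw [← e1]; ring
      _ = EE (hf z) ^ 2 * (y ^ 2 * (y ^ 2 - y * y⁻¹)) := by rw [h5]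
      _ = _ := by ring
  · have h3 := FF_hf1 z
    have h5 : y * y⁻¹ = 1 := mul_inv_cancel₀ hy0
    apply mul_left_cancel₀ (mul_ne_zero (pow_ne_zero 2 h0) hy0)
    have h6 : EE z ^ 2 * y ^ 4 * (16 * FF (hf1 z)) = EE z ^ 2 * (1 - y ^ 2) := by
      rw [e2] at h3
      linear_combination h3
    calc EE z ^ 2 * y * (16 * FF (hf1 z) * y ^ 3) = EE z ^ 2 * y ^ 4 * (16 * FF (hf1 z)) := by
          ring
      _ = EE z ^ 2 * (y * y⁻¹ - y ^ 2) := by rw [h6, h5]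
      _ = _ := by ring

private theorem a9_term1 (z : ℍ) (κ j : ℕ) (y : ℂ) (hy : y ≠ 0)
    (e1 : EE (hf z) * y ^ 2 = EE z) (f1 : 16 * FF (hf z) = y ^ 3 * (y - y⁻¹)) :
    EE (hf z) ^ κ * FF (hf z) ^ j * 16 ^ j =
      EE z ^ κ * (y ^ (3 * (j : ℤ) - 2 * κ) * (y - y⁻¹) ^ j) := by
  have h1 : (16 * FF (hf z)) ^ j = y ^ (3 * j) * (y - y⁻¹) ^ j := by
    rw [f1, mul_pow, ← pow_mul]
  have h2 : EE (hf z) ^ κ * y ^ (2 * κ) = EE z ^ κ := by
    rw [← e1, mul_pow, ← pow_mul]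
  have h3 : y ^ (3 * (j : ℤ) - 2 * κ) = y ^ (3 * j) / y ^ (2 * κ) := by
    rw [zpow_sub₀ hy]
    norm_cast
  rw [h3, ← h2]
  have h4 : y ^ (2 * κ) * (y ^ (2 * κ))⁻¹ = 1 := mul_inv_cancel₀ (pow_ne_zero _ hy)
  calc EE (hf z) ^ κ * FF (hf z) ^ j * 16 ^ j = EE (hf z) ^ κ * (16 * FF (hf z)) ^ j := by
        rw [mul_pow]; ring
    _ = EE (hf z) ^ κ * (y ^ (3 * j) * (y - y⁻¹) ^ j) * (y ^ (2 * κ) * (y ^ (2 * κ))⁻¹) := by
        rw [h1, h4, mul_one]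
    _ = _ := by rw [div_eq_mul_inv]; ring

private theorem a9_term2 (z : ℍ) (κ j : ℕ) (y : ℂ) (hy : y ≠ 0)
    (e2 : EE (hf1 z) = EE z * y ^ 2) (f2 : 16 * FF (hf1 z) * y ^ 3 = -(y - y⁻¹)) :
    EE (hf1 z) ^ κ * FF (hf1 z) ^ j * 16 ^ j =
      EE z ^ κ * ((-1) ^ j * y ^ (2 * (κ : ℤ) - 3 * j) * (y - y⁻¹) ^ j) := by
  have h1 : (16 * FF (hf1 z)) ^ j * y ^ (3 * j) = (-1) ^ j * (y - y⁻¹) ^ j := by
    rw [pow_mul, ← mul_pow, f2, ← mul_pow]
    ring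
  have h2 : EE (hf1 z) ^ κ = EE z ^ κ * y ^ (2 * κ) := by
    rw [e2, mul_pow, ← pow_mul]
  have h3 : y ^ (2 * (κ : ℤ) - 3 * j) = y ^ (2 * κ) / y ^ (3 * j) := by
    rw [zpow_sub₀ hy]
    norm_cast
  have h4 : y ^ (3 * j) ≠ 0 := pow_ne_zero _ hy
  rw [h3, h2]
  have h5 : (16 * FF (hf1 z)) ^ j = (-1) ^ j * (y - y⁻¹) ^ j / y ^ (3 * j) := by
    rw [eq_div_iff h4, h1]
  calc EE z ^ κ * y ^ (2 * κ) * FF (hf1 z) ^ j * 16 ^ j =
      EE z ^ κ * y ^ (2 * κ) * (16 * FF (hf1 z)) ^ j := by rw [mul_pow]; ring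
    _ = _ := by rw [h5]; ring

/-- the sum over `i` -/
private theorem a9_sum (j : ℕ) (u F : ℂ) (hu : u ^ 2 = 256 * F) (C : ℂ)
    (b : ℕ → ℚ) (hb : ∀ i, 2 * i < j → b i = 0) (T : Finset ℕ) :
    C * (u ^ j * ∑ i ∈ T, ((b i : ℚ) : ℂ) * u ^ (2 * i - j)) / 2 =
      16 ^ j * ∑ i ∈ T, (((2 ^ (8 * (i : ℤ) - 4 * j - 1) * b i : ℚ)) : ℂ) * (C * F ^ i) := by
  rw [Finset.mul_sum, Finset.mul_sum, Finset.mul_sum, Finset.sum_div]
  apply Finset.sum_congr rfl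
  intro i _
  by_cases hi : 2 * i < j
  · rw [hb i hi]
    simp
  · have h1 : u ^ j * u ^ (2 * i - j) = 256 ^ i * F ^ i := by
      rw [← pow_add, Nat.add_sub_cancel' (by omega), pow_mul, hu, mul_pow]
    have h2 : (((2 ^ (8 * (i : ℤ) - 4 * j - 1) * b i : ℚ)) : ℂ) * 16 ^ j * 2 = 256 ^ i * b i := by
      have h3 : ((2 : ℂ)) ^ (8 * (i : ℤ) - 4 * j - 1) * 16 ^ j * 2 = 256 ^ i := by
        have h4 : (16 : ℂ) ^ j = 2 ^ (4 * (j : ℤ)) := by
          rw [zpow_mul]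
          norm_num
        have h5 : (256 : ℂ) ^ i = 2 ^ (8 * (i : ℤ)) := by
          rw [zpow_mul]
          norm_num
        rw [h4, h5, ← zpow_add₀ two_ne_zero, ← zpow_add_one₀ two_ne_zero]
        congr 1
        ring
      push_cast
      rw [← h3]
      ring
    calc C * (u ^ j * (((b i : ℚ) : ℂ) * u ^ (2 * i - j))) / 2
        = C * ((b i : ℚ) : ℂ) * (u ^ j * u ^ (2 * i - j)) / 2 := by ring
      _ = C * F ^ i * (256 ^ i * ((b i : ℚ) : ℂ)) / 2 := by rw [h1]; ring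
      _ = C * F ^ i * ((((2 ^ (8 * (i : ℤ) - 4 * j - 1) * b i : ℚ)) : ℂ) * 16 ^ j * 2) / 2 := by
          rw [h2]
      _ = _ := by ring

private theorem a9_false (κ j : ℕ) (hj : 1 ≤ j) (hjκ : j < κ) (z : ℍ) :
    U2 (gg false κ j) z =
      ∑ i ∈ Finset.Ico 1 κ, ((aa false (κ : ℚ) i j : ℚ) : ℂ) * gg false κ i z := by
  obtain ⟨y, hy, e2, e1, hu, f1, f2⟩ := a9_root z
  have t1 := a9_term1 z κ j y hy e1 f1
  have t2 := a9_term2 z κ j y hy e2 f2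
  have hp := poly1 κ j hj hjκ y hy
  have hs := a9_sum j (y - y⁻¹) (FF z) hu (EE z ^ κ) (fun i => b1 κ i j)
    (fun i hi => by simp only [b1]; rw [if_neg (by omega)]) (Finset.Ico 1 κ)
  rw [← hp] at hs
  have h16 : (16 : ℂ) ^ j ≠ 0 := pow_ne_zero _ (by norm_num)
  apply mul_left_cancel₀ h16
  have e3 : ∀ w, gg false κ j w = EE w ^ κ * FF w ^ j := fun w => by simp [gg]
  have e4 : ∀ i, gg false κ i z = EE z ^ κ * FF z ^ i := fun i => by simp [gg]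
  have e5 : ∀ i, aa false (κ : ℚ) i j = 2 ^ (8 * (i : ℤ) - 4 * j - 1) * b1 κ i j := fun i => by
    simp [aa, bb]
  simp only [e4, e5]
  rw [← hs, U2, e3, e3]
  linear_combination t1 / 2 + t2 / 2

private theorem a9_true (κ j : ℕ) (hj : 1 ≤ j) (hjκ : j < κ) (z : ℍ) :
    HH z * (U2 (gg true κ j) z -
      ∑ i ∈ Finset.Ico 1 κ, ((aa true (κ : ℚ) i j : ℚ) : ℂ) * gg true κ i z) = 0 := by
  obtain ⟨y, hy, e2, e1, hu, f1, f2⟩ := a9_root z
  by_cases hD : y + y⁻¹ = 0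
  · have h5 : y * y⁻¹ = 1 := mul_inv_cancel₀ hy
    have hy2 : y ^ 2 = -1 := by
      have : y * (y + y⁻¹) = 0 := by rw [hD, mul_zero]
      linear_combination this - h5
    have h6 : (y - y⁻¹) ^ 2 = -4 := by
      have h7 : y⁻¹ = -y := by linear_combination hD
      rw [h7]
      linear_combination 4 * hy2
    rw [h6] at hu
    have h8 : HH z ^ 2 = 0 := by
      rw [HH_sq]
      linear_combination -(EE z / 4) * hu
    rw [pow_eq_zero_iff two_ne_zero] at h8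
    rw [h8, zero_mul]
  have t1 := a9_term1 z κ j y hy e1 f1
  have t2 := a9_term2 z κ j y hy e2 f2
  have hp := poly2 κ j hj hjκ y hy hD
  have hs := a9_sum j (y - y⁻¹) (FF z) hu (HH z * EE z ^ κ) (fun i => b2 κ i j)
    (fun i hi => by simp only [b2]; rw [if_neg (by omega), if_neg (by omega)]) (Finset.Ico 1 κ)
  rw [← hp] at hs
  have h16 : (16 : ℂ) ^ j ≠ 0 := pow_ne_zero _ (by norm_num)
  have h0 := EE_ne_zero z
  have h1 := EE_ne_zero (hf z)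
  have h5 : y * y⁻¹ = 1 := mul_inv_cancel₀ hy
  have g1 : HH (hf z) = 2 * HH z * (2 * y - y⁻¹) / (y + y⁻¹) := by
    rw [eq_div_iff hD]
    apply mul_left_cancel₀ (mul_ne_zero h1 hy)
    have h3 := HH_hf z
    rw [← e1] at h3
    linear_combination h3 + (EE (hf z) * HH (hf z) + 2 * HH z * EE (hf z)) * h5
  have g2 : HH (hf1 z) = 2 * HH z * (2 * y⁻¹ - y) / (y + y⁻¹) := by
    rw [eq_div_iff hD]
    apply mul_left_cancel₀ (mul_ne_zero h0 hy)
    have h3 := HH_hf1 z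
    rw [e2] at h3
    linear_combination h3 + (EE z * HH (hf1 z) - 4 * HH z * EE z) * h5
  have hmain : U2 (gg true κ j) z =
      ∑ i ∈ Finset.Ico 1 κ, ((aa true (κ : ℚ) i j : ℚ) : ℂ) * gg true κ i z := by
    apply mul_left_cancel₀ h16
    have e3 : ∀ w, gg true κ j w = HH w * (EE w ^ κ * FF w ^ j) := fun w => by
      simp only [gg, if_true]; ring
    have e4 : ∀ i, gg true κ i z = HH z * EE z ^ κ * FF z ^ i := fun i => by
      simp only [gg, if_true]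
    have e5 : ∀ i, aa true (κ : ℚ) i j = 2 ^ (8 * (i : ℤ) - 4 * j - 1) * b2 κ i j := fun i => by
      simp [aa, bb]
    simp only [e4, e5]
    rw [← hs, U2, e3, e3, g1, g2]
    linear_combination (HH z * (2 * y - y⁻¹) / (y + y⁻¹)) * t1 +
      (HH z * (2 * y⁻¹ - y) / (y + y⁻¹)) * t2
  rw [hmain, sub_self, mul_zero]

private theorem a9_mdiff_iff (f : ℍ → ℂ) : MDiff f ↔
    DifferentiableOn ℂ (f ∘ ofComplex) {z : ℂ | 0 < z.im} := UpperHalfPlane.mdifferentiable_iff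

private theorem a9_mul {f g : ℍ → ℂ} (hf : MDiff f) (hg : MDiff g) :
    MDiff (fun z => f z * g z) := by
  rw [a9_mdiff_iff] at *
  exact hf.mul hg

private theorem a9_add {f g : ℍ → ℂ} (hf : MDiff f) (hg : MDiff g) :
    MDiff (fun z => f z + g z) := by
  rw [a9_mdiff_iff] at *
  exact hf.add hg

private theorem a9_const (c : ℂ) : MDiff (fun _ : ℍ => c) := by
  rw [a9_mdiff_iff]
  exact differentiableOn_const c

private theorem a9_sumd {ι : Type} (T : Finset ι) (f : ι → ℍ → ℂ) (h : ∀ i ∈ T, MDiff (f i)) :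
    MDiff (fun z => ∑ i ∈ T, f i z) := by
  classical
  induction T using Finset.induction_on with
  | empty => simpa using a9_const 0
  | insert a T ha ih =>
    simp only [Finset.sum_insert ha]
    exact a9_add (h a (Finset.mem_insert_self _ _))
      (ih fun i hi => h i (Finset.mem_insert_of_mem hi))

private theorem a9_gg (κ j : ℕ) : MDiff (gg true κ j) := by
  have h : gg true κ j = fun z => (HH z * EE z ^ κ) * FF z ^ j := by
    funext z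
    simp only [gg, if_true]
  rw [h]
  exact a9_mul (a9_mul HH_mdiff (mdiff_pow EE_mdiff κ)) (mdiff_pow FF_mdiff j)

private theorem a9_diff (κ j : ℕ) : MDiff (fun z => U2 (gg true κ j) z -
      ∑ i ∈ Finset.Ico 1 κ, ((aa true (κ : ℚ) i j : ℚ) : ℂ) * gg true κ i z) := by
  have h : (fun z => U2 (gg true κ j) z -
      ∑ i ∈ Finset.Ico 1 κ, ((aa true (κ : ℚ) i j : ℚ) : ℂ) * gg true κ i z) =
      fun z => (gg true κ j (hf z) + gg true κ j (hf1 z)) * (1 / 2) + (-1) *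
        ∑ i ∈ Finset.Ico 1 κ, ((aa true (κ : ℚ) i j : ℚ) : ℂ) * gg true κ i z := by
    funext z
    rw [U2]
    ring
  rw [h]
  apply a9_add
  · apply a9_mul _ (a9_const _)
    exact a9_add (mdiff_hf (a9_gg κ j)) (mdiff_hf1 (a9_gg κ j))
  · apply a9_mul (a9_const _)
    apply a9_sumd
    intro i _
    exact a9_mul (a9_const _) (a9_gg κ i)

theorem U2_basis (ε : Bool) (κ j : ℕ) (hj : 1 ≤ j) (hjκ : j < κ) (z : ℍ) :
    U2 (gg ε κ j) z =
      ∑ i ∈ Finset.Ico 1 κ, ((aa ε (κ : ℚ) i j : ℚ) : ℂ) * gg ε κ i z := by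
  cases ε
  · exact a9_false κ j hj hjκ z
  · rcases mul_eq_zero_of_mdiff HH_mdiff (a9_diff κ j) (a9_true κ j hj hjκ) with h | h
    · exfalso
      have h1 := HH_tendsto
      have h2 : HH = fun _ => 0 := funext h
      rw [h2] at h1
      have h3 := tendsto_nhds_unique h1 tendsto_const_nhds
      exact one_ne_zero h3
    · exact sub_eq_zero.1 (h z)

end Pool.Agent.Helper5.MD
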