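import Pool.Agent.Helper5.MD.D8Crit
import Pool.Agent.Helper5.MD.B1Vertex
import Pool.Agent.Helper5.MD.B2Roots
import Pool.Agent.Helper5.MD.B3Count
import Pool.Agent.Helper5.MD.B4Val
import Pool.Agent.Helper5.MD.E1Count
import Pool.Agent.Helper5.MD.MF.A13Transfer

/-!
# MD-F1 : the main theorem for `κ ≥ 800`

Let `𝒢` be the set of admissible `n` (`adm_count`), `s n = v2 (PS n) + 1`, `v` the valuation of `exists_valuation_two`, `t n = v (2 ^ s n)`.
`crit_of_adm`, `vertex_of_crit`, `card_roots_of_vertex`, `card_values_of_card_filter`: the roots `α` of the characteristic polynomial with `t n < v α` for some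
`n ∈ 𝒢` have at least `|𝒢|` different values `v α`.  `PS_upper` gives `s n ≤ 4 n + 5 log2 κ + 9 ≤ 2 κ - 1` (as `6 n ≤ κ`, `κ ≥ 800`), so
`v α > v 2 ^ (2 κ - 1)` and therefore `α ≠ 0`, `α^2 ≠ 2^(2m-2)` (`m = 2 κ + ε`: `v (α^2) > v 2 ^ (4 κ - 2) ≥ v (2^(2m-2))`) and
`v (2^(2m-1)/α) < v 2^(2m-1-(2κ-1)) ≤ v 2^(2κ-1) < v α`, so `v (α + 2^(2m-1)/α) = v α`.  By `eigenvalue_of_root` these are eigenvalues of `T_2`.
-/

open UpperHalfPlane hiding I
open ModularForm MatrixGroups Filter Topology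
open scoped Manifold Real Nat

namespace Pool.Agent.Helper5.MD

/-- facts about the valuation of `2` -/
private theorem f1_zpow {Γ₀ : Type*} [LinearOrderedCommGroupWithZero Γ₀]
    (v : Valuation ℂ Γ₀) (hv : v 2 < 1) {a b : ℤ} (h : a ≤ b) :
    v ((2 : ℂ) ^ b) ≤ v ((2 : ℂ) ^ a) := by
  rw [map_zpow₀, map_zpow₀]
  have h0 : 0 < v 2 := by
    rw [zero_lt_iff]
    exact (Valuation.ne_zero_iff v).2 two_ne_zero
  exact zpow_le_zpow_right_of_le_one₀ h0 hv.le h

open Classical in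
theorem card_eigenvalues (ε : Bool) (κ : ℕ) (hκ : 800 ≤ κ) :
    ∃ S : Finset ℂ, (κ : ℝ) / 480 - 2 ≤ (S.card : ℝ) ∧
      ∀ μ ∈ S, Module.End.HasEigenvalue (T2 (2 * (κ : ℤ) + (if ε then 1 else 0))) μ := by
  obtain ⟨x0, hcount⟩ := adm_count ε κ hκ
  obtain ⟨A, hA⟩ := exists_valuation_two
  set v := A.valuation with hv
  set m : ℤ := 2 * (κ : ℤ) + (if ε then 1 else 0) with hm
  have hm1 : 2 * (κ : ℤ) ≤ m := by
    rw [hm]
    split_ifs <;> omega
  set R : Multiset ℂ := ((MAT ε κ).map (algebraMap ℚ ℂ)).charpoly.roots with hR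
  set GG : Finset ℕ := (Finset.range (κ + 1)).filter (Adm ε κ x0) with hGG
  set s : ℕ → ℤ := fun n => padicValRat 2 (PS ε κ n) + 1 with hs
  have hadm : ∀ n ∈ GG, Adm ε κ x0 n := fun n hn => (Finset.mem_filter.1 hn).2
  have hslope : ∀ n ∈ GG, s n ≤ 2 * (κ : ℤ) - 1 := by
    intro n hn
    have h1 := hadm n hn
    have h2 : 1 ≤ n := h1.1
    have h3 : 6 * n ≤ κ := h1.2.1
    have h4 := PS_upper ε κ n h2 (by omega)
    have h5 := D8.log_bound κ hκ
    simp only [hs]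
    omega
  have hcard : ∀ n ∈ GG, Multiset.card (R.filter (fun α => v ((2 : ℂ) ^ s n) < v α)) = n := by
    intro n hn
    exact card_roots_of_vertex v hA (κ - 1) n (MAT ε κ) (s n)
      (vertex_of_crit _ _ _ _ (crit_of_adm ε κ x0 n (hadm n hn) hκ))
  have hB3 := card_values_of_card_filter R v GG (fun n hn => (hadm n hn).1)
    (fun n => v ((2 : ℂ) ^ s n)) hcard
  set R' : Multiset ℂ := R.filter (fun α => ∃ n ∈ GG, v ((2 : ℂ) ^ s n) < v α) with hR'
  have hbig : ∀ α ∈ R', v ((2 : ℂ) ^ (2 * (κ : ℤ) - 1)) < v α := by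
    intro α hα
    rw [hR', Multiset.mem_filter] at hα
    obtain ⟨_, n, hn, h⟩ := hα
    exact (f1_zpow v hA (hslope n hn)).trans_lt h
  have hne : ∀ α ∈ R', α ≠ 0 := by
    intro α hα h0
    have := hbig α hα
    rw [h0, map_zero] at this
    exact not_lt_zero this
  set f : ℂ → ℂ := fun α => α + 2 ^ (2 * m - 1) / α with hf
  have hval : ∀ α ∈ R', v (f α) = v α := by
    intro α hα
    have hb := hbig α hα
    have h0 := hne α hα
    have hv0 : v α ≠ 0 := (Valuation.ne_zero_iff v).2 h0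
    apply Valuation.map_add_eq_of_lt_left
    rw [map_div₀, div_lt_iff₀ (zero_lt_iff.2 hv0)]
    calc v ((2 : ℂ) ^ (2 * m - 1)) ≤ v ((2 : ℂ) ^ (2 * (κ : ℤ) - 1) * (2 : ℂ) ^ (2 * (κ : ℤ) - 1)) := by
          rw [← zpow_add₀ two_ne_zero]
          exact f1_zpow v hA (by omega)
      _ < v α * v α := by
          rw [map_mul]
          exact mul_lt_mul'' hb hb zero_le zero_le
  have hsq : ∀ α ∈ R', α ^ 2 ≠ 2 ^ (2 * m - 2) := by
    intro α hα h
    have hb := hbig α hα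
    have h1 : v ((2 : ℂ) ^ (2 * m - 2)) ≤
        v ((2 : ℂ) ^ (2 * (κ : ℤ) - 1) * (2 : ℂ) ^ (2 * (κ : ℤ) - 1)) := by
      rw [← zpow_add₀ two_ne_zero]
      exact f1_zpow v hA (by omega)
    rw [← h, map_mul, pow_two, map_mul] at h1
    exact absurd (mul_lt_mul'' hb hb zero_le zero_le) (not_lt.2 h1)
  refine ⟨(R'.map f).toFinset, ?_, ?_⟩
  · have h1 : ((R'.map v).toFinset) = ((R'.map f).toFinset).image v := by
      ext y
      simp only [Multiset.mem_toFinset, Multiset.mem_map, Finset.mem_image]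
      constructor
      · rintro ⟨α, hα, rfl⟩
        exact ⟨f α, ⟨α, hα, rfl⟩, hval α hα⟩
      · rintro ⟨_, ⟨α, hα, rfl⟩, rfl⟩
        exact ⟨α, hα, (hval α hα).symm⟩
    have h2 : GG.card ≤ ((R'.map f).toFinset).card := by
      refine hB3.trans ?_
      rw [h1]
      exact Finset.card_image_le
    have h3 : (GG.card : ℝ) ≤ (((R'.map f).toFinset).card : ℝ) := by exact_mod_cast h2
    exact hcount.trans h3
  · intro μ hμ
    rw [Multiset.mem_toFinset, Multiset.mem_map] at hμ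
    obtain ⟨α, hα, rfl⟩ := hμ
    have hroot : ((MAT ε κ).map (algebraMap ℚ ℂ)).charpoly.IsRoot α :=
      Polynomial.isRoot_of_mem_roots (Multiset.mem_of_mem_filter hα)
    exact eigenvalue_of_root ε κ α hroot (hne α hα) (hsq α hα)

end Pool.Agent.Helper5.MD
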