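import Pool.Agent.Helper5.MD.MF.F1Main

/-!
# The number of distinct roots of the Hecke polynomial
-/

open UpperHalfPlane hiding I
open ModularForm MatrixGroups Filter Topology
open scoped Manifold Real Nat

namespace Pool.Agent.Helper5.MD

instance instFiniteCusp (k : ℤ) : FiniteDimensional ℂ (CuspForm 𝒮ℒ k) :=
  finiteDimensional_cuspForm k

theorem card_le_of_eigenvalues {V : Type*} [AddCommGroup V] [Module ℂ V] [FiniteDimensional ℂ V]
    (T : V →ₗ[ℂ] V) (S : Finset ℂ) (h : ∀ μ ∈ S, Module.End.HasEigenvalue T μ) :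
    S.card ≤ T.charpoly.roots.toFinset.card := by
  apply Finset.card_le_card
  intro μ hμ
  rw [Multiset.mem_toFinset, Polynomial.mem_roots (LinearMap.charpoly_monic T).ne_zero]
  exact (Module.End.hasEigenvalue_iff_isRoot_charpoly T μ).1 (h μ hμ)

theorem one_le_card_roots {V : Type*} [AddCommGroup V] [Module ℂ V] [FiniteDimensional ℂ V]
    [Nontrivial V] (T : V →ₗ[ℂ] V) : 1 ≤ T.charpoly.roots.toFinset.card := by
  obtain ⟨μ, hμ⟩ := Module.End.exists_eigenvalue T
  simpa using card_le_of_eigenvalues T {μ} (by simpa using hμ)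

theorem distinct_roots (m : ℕ) (h : Nontrivial (CuspForm 𝒮ℒ (2 * (m : ℤ)))) :
    ((2 * m : ℕ) : ℝ) / 8000 ≤ ((T2 (m : ℤ)).charpoly.roots.toFinset.card : ℝ) := by
  by_cases hm : 2 * m ≤ 8000
  · have h1 : (1 : ℝ) ≤ ((T2 (m : ℤ)).charpoly.roots.toFinset.card : ℝ) := by
      exact_mod_cast one_le_card_roots (T2 (m : ℤ))
    have h2 : ((2 * m : ℕ) : ℝ) ≤ 8000 := by exact_mod_cast hm
    have h3 : ((2 * m : ℕ) : ℝ) / 8000 ≤ 1 := by
      rw [div_le_one (by norm_num)]; exact h2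
    exact h3.trans h1
  · obtain ⟨κ, ε, rfl⟩ : ∃ κ : ℕ, ∃ ε : Bool, m = 2 * κ + (if ε then 1 else 0) := by
      rcases Nat.even_or_odd' m with ⟨c, hc | hc⟩
      · exact ⟨c, false, by simpa using hc⟩
      · exact ⟨c, true, by simpa using hc⟩
    have hκ : 800 ≤ κ := by
      cases ε <;> simp at hm <;> omega
    have key : ∀ M : ℤ, M = 2 * (κ : ℤ) + (if ε then 1 else 0) →
        (κ : ℝ) / 480 - 2 ≤ ((T2 M).charpoly.roots.toFinset.card : ℝ) := by
      rintro M rfl
      obtain ⟨S, hS, hev⟩ := card_eigenvalues ε κ hκ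
      refine hS.trans ?_
      exact_mod_cast card_le_of_eigenvalues _ S hev
    have hk := key (((2 * κ + (if ε then 1 else 0) : ℕ)) : ℤ) (by cases ε <;> simp)
    refine le_trans ?_ hk
    have hm' : (8000 : ℝ) < 2 * (((2 * κ + (if ε then 1 else 0) : ℕ)) : ℝ) := by
      have : 8000 < 2 * (2 * κ + (if ε then 1 else 0)) := by omega
      exact_mod_cast this
    have hle : (((2 * κ + (if ε then 1 else 0) : ℕ)) : ℝ) ≤ 2 * (κ : ℝ) + 1 := by
      cases ε <;> simp
    push_cast at hm' hle ⊢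
    linarith

end Pool.Agent.Helper5.MD
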