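import Pool.Agent.Helper5.MD.Defs

/-!
# The modular part: definitions

`dbl z = 2 z`, `hf z = z / 2`, `hf1 z = (z + 1) / 2`, `fr z = - 1 / (2 z)` (Fricke),
`sh z = z + 1`, `sv z = - 1 / z` on the upper half plane.
`EE = η(z)^16 / η(2z)^8`, `FF = η(2z)^24 / η(z)^24`, `HH = 2 E2(2z) - E2(z)` on `Γ_0(2)`.
`gg ε κ j = (HH if ε) * EE^κ * FF^j`.
-/

open UpperHalfPlane hiding I
open ModularForm MatrixGroups Filter Topology
open scoped Manifold Real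

namespace Pool.Agent.Helper5.MD

noncomputable section

/-- `z ↦ 2 z` -/
def dbl (z : ℍ) : ℍ := ⟨2 * (z : ℂ), by have := z.im_pos; simpa using this⟩

/-- `z ↦ z / 2` -/
def hf (z : ℍ) : ℍ := ⟨(z : ℂ) / 2, by have := z.im_pos; simpa using this⟩

/-- `z ↦ (z + 1) / 2` -/
def hf1 (z : ℍ) : ℍ := ⟨((z : ℂ) + 1) / 2, by have := z.im_pos; simpa using this⟩

/-- `z ↦ z + 1` -/
def sh (z : ℍ) : ℍ := ⟨(z : ℂ) + 1, by have := z.im_pos; simpa using this⟩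

/-- `z ↦ - 1 / z` -/
def sv (z : ℍ) : ℍ := ⟨-1 / (z : ℂ), by
  have h := z.im_inv_neg_coe_pos
  rwa [show (-1 : ℂ) / (z : ℂ) = (-(z : ℂ))⁻¹ by rw [inv_neg, neg_div, one_div]]⟩

/-- the Fricke involution `z ↦ - 1 / (2 z)` -/
def fr (z : ℍ) : ℍ := ⟨-1 / (2 * (z : ℂ)), by
  have h := (dbl z).im_inv_neg_coe_pos
  rwa [show ((dbl z : ℍ) : ℂ) = 2 * (z : ℂ) from rfl,
    show (-(2 * (z : ℂ)))⁻¹ = -1 / (2 * (z : ℂ)) by rw [inv_neg, neg_div, one_div]] at h⟩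

@[simp] theorem coe_dbl (z : ℍ) : ((dbl z : ℍ) : ℂ) = 2 * (z : ℂ) := rfl
@[simp] theorem coe_hf (z : ℍ) : ((hf z : ℍ) : ℂ) = (z : ℂ) / 2 := rfl
@[simp] theorem coe_hf1 (z : ℍ) : ((hf1 z : ℍ) : ℂ) = ((z : ℂ) + 1) / 2 := rfl
@[simp] theorem coe_sh (z : ℍ) : ((sh z : ℍ) : ℂ) = (z : ℂ) + 1 := rfl
@[simp] theorem coe_sv (z : ℍ) : ((sv z : ℍ) : ℂ) = -1 / (z : ℂ) := rfl
@[simp] theorem coe_fr (z : ℍ) : ((fr z : ℍ) : ℂ) = -1 / (2 * (z : ℂ)) := rfl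

theorem dbl_hf (z : ℍ) : dbl (hf z) = z := by
  apply UpperHalfPlane.ext; simp; ring

theorem dbl_hf1 (z : ℍ) : dbl (hf1 z) = sh z := by
  apply UpperHalfPlane.ext; simp; ring

theorem hf_dbl (z : ℍ) : hf (dbl z) = z := by
  apply UpperHalfPlane.ext; simp

theorem hf_sh (z : ℍ) : hf (sh z) = hf1 z := by
  apply UpperHalfPlane.ext; simp

theorem hf1_sh (z : ℍ) : hf1 (sh z) = sh (hf z) := by
  apply UpperHalfPlane.ext; simp; ring

theorem fr_fr (z : ℍ) : fr (fr z) = z := by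
  apply UpperHalfPlane.ext
  have := z.ne_zero
  simp; field_simp

theorem hf_sv (z : ℍ) : hf (sv z) = fr z := by
  apply UpperHalfPlane.ext
  have := z.ne_zero
  simp; field_simp

theorem fr_hf (z : ℍ) : fr (hf z) = sv z := by
  apply UpperHalfPlane.ext
  have := z.ne_zero
  simp; field_simp

/-- the operator `U_2` on functions -/
def U2 (g : ℍ → ℂ) (z : ℍ) : ℂ := (g (hf z) + g (hf1 z)) / 2

/-- `η(z)^16 / η(2z)^8` -/
def EE (z : ℍ) : ℂ := (ModularForm.eta z) ^ 16 / (ModularForm.eta (dbl z)) ^ 8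

/-- `η(2z)^24 / η(z)^24` -/
def FF (z : ℍ) : ℂ := (ModularForm.eta (dbl z)) ^ 24 / (ModularForm.eta z) ^ 24

/-- `2 E2(2z) - E2(z)` -/
def HH (z : ℍ) : ℂ := 2 * EisensteinSeries.E2 (dbl z) - EisensteinSeries.E2 z

/-- A pair of holomorphic functions of period `1` exchanged by the Fricke involution (weight `2 m`) -/
structure IsPair (m : ℤ) (g G : ℍ → ℂ) : Prop where
  holo : MDiff g
  holo' : MDiff G
  per : ∀ z, g (sh z) = g z
  per' : ∀ z, G (sh z) = G z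
  fricke : ∀ z, g (fr z) = 2 ^ m * (z : ℂ) ^ (2 * m) * G z

/-- basis functions -/
def gg (ε : Bool) (κ j : ℕ) (z : ℍ) : ℂ :=
  (if ε then HH z else 1) * EE z ^ κ * FF z ^ j

/-- the trace from `Γ_0(2)` to level one (up to normalization) -/
def tr (m : ℤ) (g G : ℍ → ℂ) (z : ℍ) : ℂ := 2 ^ m * G z + g (hf z) + g (hf1 z)

/-- the second elementary symmetric function -/
def tr2 (m : ℤ) (g G : ℍ → ℂ) (z : ℍ) : ℂ :=
  2 ^ m * G z * (g (hf z) + g (hf1 z)) + g (hf z) * g (hf1 z)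

/-- the norm from `Γ_0(2)` to level one -/
def nm (m : ℤ) (g G : ℍ → ℂ) (z : ℍ) : ℂ := 2 ^ m * G z * (g (hf z) * g (hf1 z))

end

end Pool.Agent.Helper5.MD
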